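import Pool.Agent.H699.TU.Cover

/-!
# The instance of a list of numbers
-/

namespace Pool.Agent.H699.TU

open Finset

/-- the sum -/
def AS (a : List ℕ) : ℤ := ((a.sum : ℕ) : ℤ)

/-- the scale -/
def BB (a : List ℕ) : ℤ := AS a + 4

/-- the partial sums -/
def VV (s : ℤ) (a : List ℕ) (k : ℕ) : ℤ := BB a * (2 ^ k - 1) - s * ((a.take k).sum : ℤ)

/-- the large number -/
def NN (a : List ℕ) : ℤ :=
  16 * (a.length : ℤ) * 4 ^ a.length * (BB a * 2 ^ (a.length + 1)) ^ 3

/-- the instance -/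
def instOf (a : List ℕ) : Inst :=
  build (numP a.length) (allO a.length)
    (allE a.length (BB a) (4 ^ a.length) (NN a) (VV 1 a) (VV (-1) a))

/-- the items -/
def aa (a : List ℕ) (k : ℕ) : ℤ := ((a.getD k 0 : ℕ) : ℤ)

theorem sum_take_succ' (a : List ℕ) (k : ℕ) (hk : k < a.length) :
    ((a.take (k + 1)).sum : ℤ) = ((a.take k).sum : ℤ) + aa a k := by
  have : (a.take (k + 1)).sum = (a.take k).sum + a.getD k 0 := by
    rw [List.sum_take_succ a k hk, List.getD_eq_getElem _ _ hk]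
  rw [this, Nat.cast_add]; rfl

theorem sum_take_le (a : List ℕ) (k : ℕ) : ((a.take k).sum : ℤ) ≤ AS a := by
  have h : (a.take k).sum + (a.drop k).sum = a.sum := List.sum_take_add_sum_drop a k
  have : (a.take k).sum ≤ a.sum := by omega
  exact Int.ofNat_le.2 this

theorem VV_succ (s : ℤ) (a : List ℕ) (k : ℕ) (hk : k < a.length) :
    VV s a (k + 1) - VV s a k = BB a * 2 ^ k - s * aa a k := by
  unfold VV
  rw [sum_take_succ' a k hk]
  ring

theorem aa_nonneg (a : List ℕ) (k : ℕ) : 0 ≤ aa a k := Int.natCast_nonneg _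

theorem aa_le (a : List ℕ) (k : ℕ) (hk : k < a.length) :
    ((a.take k).sum : ℤ) + aa a k ≤ AS a := by
  rw [← sum_take_succ' a k hk]
  exact sum_take_le a (k + 1)

theorem BB_pos (a : List ℕ) : 4 ≤ BB a := by
  unfold BB
  have : (0 : ℤ) ≤ AS a := Int.natCast_nonneg _
  linarith

theorem paramOK (s : ℤ) (hs : s = 1 ∨ s = -1) (a : List ℕ) :
    ParamOK a.length (fun k => ((VV s a k : ℤ) : ℝ)) := by
  have hA : (0 : ℤ) ≤ AS a := Int.natCast_nonneg _
  have hp : ∀ k : ℕ, (1 : ℤ) ≤ 2 ^ k := fun k => one_le_pow₀ (by norm_num)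
  constructor
  · simp [VV]
  · intro k hk
    have h1 := VV_succ s a k hk
    have h2 := aa_nonneg a k
    have h3 := aa_le a k hk
    have h4 : (0 : ℤ) ≤ ((a.take k).sum : ℤ) := Int.natCast_nonneg _
    have h5 : BB a ≤ BB a * 2 ^ k := by
      have := hp k
      have := BB_pos a
      nlinarith
    have h6 : VV s a k ≤ VV s a (k + 1) := by
      unfold BB at h5 h1
      rcases hs with rfl | rfl <;> linarith
    exact_mod_cast h6
  · intro k hk
    have h1 := VV_succ s a k hk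
    have h2 := aa_nonneg a k
    have h3 := aa_le a k hk
    have h4 : (0 : ℤ) ≤ ((a.take k).sum : ℤ) := Int.natCast_nonneg _
    have h6 : VV s a k ≤ VV s a (k + 1) - VV s a k := by
      rw [h1]
      have e : VV s a k = BB a * 2 ^ k - BB a - s * ((a.take k).sum : ℤ) := by unfold VV; ring
      rw [e]
      have h7 : BB a = AS a + 4 := rfl
      rcases hs with rfl | rfl <;> linarith
    exact_mod_cast h6

theorem VV_le (s : ℤ) (hs : s = 1 ∨ s = -1) (a : List ℕ) (k : ℕ) :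
    VV s a k ≤ BB a * (2 ^ k - 1) + AS a := by
  have h4 : (0 : ℤ) ≤ ((a.take k).sum : ℤ) := Int.natCast_nonneg _
  have h5 := sum_take_le a k
  unfold VV
  rcases hs with rfl | rfl <;> linarith

theorem VV_add (a : List ℕ) (k : ℕ) : VV 1 a k + VV (-1) a k = 2 * BB a * (2 ^ k - 1) := by
  unfold VV; ring

theorem VV_nonneg (s : ℤ) (hs : s = 1 ∨ s = -1) (a : List ℕ) (k : ℕ) (hk : k ≤ a.length) :
    0 ≤ VV s a k := by
  have := (paramOK s hs a).nonneg k hk
  exact_mod_cast this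

theorem NN_pos (a : List ℕ) (ha : a ≠ []) : 0 < NN a := by
  have h1 : 0 < (a.length : ℤ) := by exact_mod_cast List.length_pos_iff.2 ha
  have h2 := BB_pos a
  have h3 : 0 < BB a := by linarith
  unfold NN
  positivity

/-- casting the form -/
theorem Q2_cast (m : ℕ) (B M N' : ℤ) (V1 V2 z1 P1 z2 P2 : ℕ → ℤ) (T Y : ℤ) :
    ((Q2 m B M N' V1 V2 z1 P1 z2 P2 T Y : ℤ) : ℝ) = Q2 m (B : ℝ) (M : ℝ) (N' : ℝ)
      (fun k => (V1 k : ℝ)) (fun k => (V2 k : ℝ)) (fun k => (z1 k : ℝ)) (fun k => (P1 k : ℝ))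
      (fun k => (z2 k : ℝ)) (fun k => (P2 k : ℝ)) (T : ℝ) (Y : ℝ) := by
  have hb : ∀ (V : ℕ → ℤ) k, ((bb m V k : ℤ) : ℝ) = bb m (fun k => (V k : ℝ)) k := by
    intro V k; unfold bb; split_ifs <;> push_cast <;> rfl
  have hx : ∀ (z : ℕ → ℤ) (T : ℤ) k, ((xx m z T k : ℤ) : ℝ) = xx m (fun k => (z k : ℝ)) (T : ℝ) k := by
    intro V T k; unfold xx; split_ifs <;> rfl
  have hf : ∀ k, ((fw m k : ℤ) : ℝ) = fw m k := by
    intro k; unfold fw; split_ifs <;> push_cast <;> rfl
  unfold Q2 QC cY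
  push_cast
  simp only [hb, hx, hf]

theorem Q2_congr (m : ℕ) (B M N' : ℝ) (V1 V2 z1 P1 z2 P2 z1' P1' z2' P2' : ℕ → ℝ)
    (T Y : ℝ) (h1 : ∀ k < m, z1 k = z1' k) (h2 : ∀ k < m, P1 k = P1' k)
    (h3 : ∀ k < m, z2 k = z2' k) (h4 : ∀ k < m, P2 k = P2' k) :
    Q2 m B M N' V1 V2 z1 P1 z2 P2 T Y = Q2 m B M N' V1 V2 z1' P1' z2' P2' T Y := by
  have hx : ∀ (z z' : ℕ → ℝ), (∀ k < m, z k = z' k) → ∀ k < m, xx m z T k = xx m z' T k := by
    intro z z' h k hk
    unfold xx
    split_ifs with hk1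
    · exact h _ hk1
    · rfl
  have hQ : ∀ (N : ℝ) (V z P z' P' : ℕ → ℝ), (∀ k < m, z k = z' k) → (∀ k < m, P k = P' k) →
      QC m M N V z P T Y = QC m M N V z' P' T Y := by
    intro N V z P z' P' hz hP
    unfold QC
    refine Finset.sum_congr rfl fun k hk => ?_
    have hk := Finset.mem_range.1 hk
    rw [hx z z' hz k hk, hP k hk]
  unfold Q2
  rw [hQ _ V1 z1 P1 z1' P1' h1 h2, hQ _ V2 z2 P2 z2' P2' h3 h4]

/-- If all signed sums are nonzero, the objective is nonnegative. -/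
theorem energy_nonneg {a : List ℕ} (ha : a ≠ [])
    (hfar : ∀ e : ℕ → ℤ, (∀ k, e k = 1 ∨ e k = -1) → ∑ k ∈ range a.length, e k * aa a k ≠ 0)
    {x : ℕ → ℤ} (hx : ∀ p ∈ allO a.length, x p.1 ≤ x p.2) :
    0 ≤ energy (allE a.length (BB a) (4 ^ a.length) (NN a) (VV 1 a) (VV (-1) a)) x := by
  have hlen : 0 < a.length := List.length_pos_iff.2 ha
  obtain ⟨m', hm'⟩ : ∃ m', a.length = m' + 1 := ⟨a.length - 1, by omega⟩
  have hB := BB_pos a
  have hN := NN_pos a ha
  refine le_trans ?_ (allE_ge (by linarith) (by positivity) hN.le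
    (fun k hk => VV_nonneg 1 (Or.inl rfl) a k hk) (fun k hk => VV_nonneg (-1) (Or.inr rfl) a k hk) x)
  have hx32 : x 3 ≤ x 2 := hx (3, 2) (by simp [allO])
  have hx10 : x 1 ≤ x 0 := hx (1, 0) (by simp [allO])
  have c1 := chainOK_of (m := a.length) (o := 2) (x := x) (fun p hp => hx p (by
    simp only [allO, List.mem_cons, List.mem_append]; exact Or.inr (Or.inr (Or.inl hp)))) hx32
  have c2 := chainOK_of (m := a.length) (o := 2 + 2 * a.length) (x := x) (fun p hp => hx p (by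
    simp only [allO, List.mem_cons, List.mem_append]; exact Or.inr (Or.inr (Or.inr hp)))) hx32
  have p1 := paramOK 1 (Or.inl rfl) a
  have p2 := paramOK (-1) (Or.inr rfl) a
  have hfar' : Far (fun k => ((aa a k : ℤ) : ℝ)) a.length 0 := by
    have := far_of (aa a) a.length 0 (fun e he => by rw [zero_add]; exact hfar e he)
    simpa using this
  have hY : (0 : ℝ) ≤ ((sg x 0 : ℤ) : ℝ) := by
    have : 0 ≤ sg x 0 := by
      unfold sg
      simp only [mul_zero, zero_add]
      linarith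
    exact_mod_cast this
  have key : (0 : ℝ) ≤ ((Q2 a.length (BB a) (4 ^ a.length) (NN a) (VV 1 a) (VV (-1) a)
      (fun k => sg x (2 + 2 * k)) (fun k => sg x (2 + 2 * k + 1))
      (fun k => sg x (2 + 2 * a.length + 2 * k)) (fun k => sg x (2 + 2 * a.length + 2 * k + 1))
      (sg x 1) (sg x 0) : ℤ) : ℝ) := by
    rw [Q2_cast]
    push_cast
    have v1 : ∀ k < a.length, ((VV 1 a (k + 1) : ℤ) : ℝ) - ((VV 1 a k : ℤ) : ℝ) =
        ((BB a : ℤ) : ℝ) * 2 ^ k - ((aa a k : ℤ) : ℝ) := by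
      intro k hk
      have := VV_succ 1 a k hk
      rw [one_mul] at this
      exact_mod_cast this
    have v2 : ∀ k < a.length, ((VV (-1) a (k + 1) : ℤ) : ℝ) - ((VV (-1) a k : ℤ) : ℝ) =
        ((BB a : ℤ) : ℝ) * 2 ^ k + ((aa a k : ℤ) : ℝ) := by
      intro k hk
      have := VV_succ (-1) a k hk
      have e : BB a * 2 ^ k - -1 * aa a k = BB a * 2 ^ k + aa a k := by ring
      rw [e] at this
      exact_mod_cast this
    have u1 : ((VV 1 a a.length : ℤ) : ℝ) ≤ ((BB a : ℤ) : ℝ) * (2 ^ a.length - 1) +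
        ((AS a : ℤ) : ℝ) := by
      have := VV_le 1 (Or.inl rfl) a a.length
      exact_mod_cast this
    have u2 : ((VV (-1) a a.length : ℤ) : ℝ) ≤ ((BB a : ℤ) : ℝ) * (2 ^ a.length - 1) +
        ((AS a : ℤ) : ℝ) := by
      have := VV_le (-1) (Or.inr rfl) a a.length
      exact_mod_cast this
    have s1 : ((VV 1 a a.length : ℤ) : ℝ) + ((VV (-1) a a.length : ℤ) : ℝ) =
        2 * ((BB a : ℤ) : ℝ) * (2 ^ a.length - 1) := by
      have := VV_add a a.length
      exact_mod_cast this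
    have hB4 : ((AS a : ℤ) : ℝ) + 4 ≤ ((BB a : ℤ) : ℝ) := by
      unfold BB; push_cast; exact le_rfl
    have hN' : (0 : ℝ) < ((NN a : ℤ) : ℝ) := by exact_mod_cast hN
    have hA0 : (0 : ℝ) ≤ ((AS a : ℤ) : ℝ) := by
      have : (0 : ℤ) ≤ AS a := Int.natCast_nonneg _
      exact_mod_cast this
    revert c1 c2 p1 p2 hfar' v1 v2 u1 u2 s1
    rw [hm']
    intro c1 c2 p1 p2 hfar' v1 v2 u1 u2 s1
    exact Q2_nonneg hA0 hB4 p1 p2 v1 v2 s1 u1 u2 hfar' hN' c1 c2 hY
  exact_mod_cast key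

/-- the signed values of the witness -/
def Zw (m : ℕ) (Y T : ℤ) (z1 P1 z2 P2 : ℕ → ℤ) (j : ℕ) : ℤ :=
  if j = 0 then Y else if j = 1 then T else
    if j < 2 + 2 * m then (if j % 2 = 0 then z1 ((j - 2) / 2) else P1 ((j - 2) / 2))
    else (if j % 2 = 0 then z2 ((j - (2 + 2 * m)) / 2) else P2 ((j - (2 + 2 * m)) / 2))

/-- the potentials of the witness -/
def yw (Z : ℕ → ℤ) (j : ℕ) : ℤ := if j % 2 = 0 then Z (j / 2) else - Z (j / 2)

theorem yw_even (Z : ℕ → ℤ) (s : ℕ) : yw Z (2 * s) = Z s := by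
  unfold yw
  rw [if_pos (by omega)]
  congr 1
  omega

theorem yw_odd (Z : ℕ → ℤ) (s : ℕ) : yw Z (2 * s + 1) = - Z s := by
  unfold yw
  rw [if_neg (by omega)]
  congr 2
  omega

theorem cast_zw (e V : ℕ → ℤ) (k : ℕ) :
    ((zw e V k : ℤ) : ℝ) = zw (fun k => (e k : ℝ)) (fun k => (V k : ℝ)) k := by
  unfold zw Lam
  push_cast
  rfl

theorem cast_Pw (m : ℕ) (e V : ℕ → ℤ) (T : ℤ) (k : ℕ) :
    ((Pw m e V T k : ℤ) : ℝ) = Pw m (fun k => (e k : ℝ)) (fun k => (V k : ℝ)) (T : ℝ) k := by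
  unfold Pw bb xx
  split_ifs
  · push_cast
    rw [cast_zw]
  · push_cast
    rfl

/-- A vanishing signed sum gives a point with negative objective. -/
theorem exists_neg {a : List ℕ} (ha : a ≠ []) {e : ℕ → ℤ} (he : ∀ k, e k = 1 ∨ e k = -1)
    (hsum : ∑ k ∈ range a.length, e k * aa a k = 0) (hem : e (a.length - 1) = 1) :
    ∃ y : ℕ → ℤ, (∀ p ∈ allO a.length, y p.1 ≤ y p.2) ∧
      energy (allE a.length (BB a) (4 ^ a.length) (NN a) (VV 1 a) (VV (-1) a)) y < 0 := by
  have hlen : 0 < a.length := List.length_pos_iff.2 ha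
  obtain ⟨m', hm'⟩ : ∃ m', a.length = m' + 1 := ⟨a.length - 1, by omega⟩
  have hB := BB_pos a
  have hN := NN_pos a ha
  set T : ℤ := BB a * oo e a.length with hT
  set z1 : ℕ → ℤ := zw e (VV 1 a) with hz1
  set z2 : ℕ → ℤ := zw e (VV (-1) a) with hz2
  set P1 : ℕ → ℤ := Pw a.length e (VV 1 a) T with hP1
  set P2 : ℕ → ℤ := Pw a.length e (VV (-1) a) T with hP2
  set Y : ℤ := BB a * NN a with hY
  set Z : ℕ → ℤ := Zw a.length Y T z1 P1 z2 P2 with hZ
  have Z0 : Z 0 = Y := by simp [hZ, Zw]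
  have Z1 : Z 1 = T := by simp [hZ, Zw]
  have Zz1 : ∀ k < a.length, Z (2 + 2 * k) = z1 k := by
    intro k hk
    simp only [hZ, Zw]
    rw [if_neg (by omega), if_neg (by omega), if_pos (by omega), if_pos (by omega)]
    congr 1; omega
  have ZP1 : ∀ k < a.length, Z (2 + 2 * k + 1) = P1 k := by
    intro k hk
    simp only [hZ, Zw]
    rw [if_neg (by omega), if_neg (by omega), if_pos (by omega), if_neg (by omega)]
    congr 1; omega
  have Zz2 : ∀ k < a.length, Z (2 + 2 * a.length + 2 * k) = z2 k := by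
    intro k hk
    simp only [hZ, Zw]
    rw [if_neg (by omega), if_neg (by omega), if_neg (by omega), if_pos (by omega)]
    congr 1; omega
  have ZP2 : ∀ k < a.length, Z (2 + 2 * a.length + 2 * k + 1) = P2 k := by
    intro k hk
    simp only [hZ, Zw]
    rw [if_neg (by omega), if_neg (by omega), if_neg (by omega), if_neg (by omega)]
    congr 1; omega
  set er : ℕ → ℝ := fun k => (e k : ℝ) with her
  have her1 : ∀ k, er k = 1 ∨ er k = -1 := by
    intro k
    rcases he k with h | h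
    · left; simp [her, h]
    · right; simp [her, h]
  have p1 := paramOK 1 (Or.inl rfl) a
  have p2 := paramOK (-1) (Or.inr rfl) a
  have hemr : er m' = 1 := by
    have : m' = a.length - 1 := by omega
    rw [this]
    simp [her, hem]
  have hLam : ∀ s : ℤ, Lam e (VV s a) a.length = T := by
    intro s
    unfold Lam
    have : ∀ j ∈ range a.length, e j * (VV s a (j + 1) - VV s a j) =
        BB a * (e j * 2 ^ j) - s * (e j * aa a j) := by
      intro j hj
      rw [VV_succ s a j (Finset.mem_range.1 hj)]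
      ring
    rw [Finset.sum_congr rfl this, Finset.sum_sub_distrib, ← Finset.mul_sum, ← Finset.mul_sum,
      hsum, hT, oo]
    ring
  have hLamr : ∀ s : ℤ, (T : ℝ) = Lam er (fun k => ((VV s a k : ℤ) : ℝ)) a.length := by
    intro s
    rw [← hLam s]
    unfold Lam
    push_cast
    rfl
  have hTr : (T : ℝ) = (BB a : ℝ) * oo er a.length := by
    rw [hT]
    unfold oo
    push_cast
    rfl
  have hT0 : 0 ≤ T := by
    have h1 := Lam_pos her1 p1 m' (by omega)
    rw [hemr, one_mul, ← hm', ← hLamr 1] at h1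
    exact_mod_cast h1
  refine ⟨yw Z, ?_, ?_⟩
  · have c1 : ChainOK a.length (zw er (fun k => ((VV 1 a k : ℤ) : ℝ)))
        (Pw a.length er (fun k => ((VV 1 a k : ℤ) : ℝ)) (T : ℝ)) (T : ℝ) := by
      have h3 := hLamr 1
      revert p1 h3
      rw [hm']
      intro p1 h3
      exact chainOK_wit her1 hemr p1 h3
    have c2 : ChainOK a.length (zw er (fun k => ((VV (-1) a k : ℤ) : ℝ)))
        (Pw a.length er (fun k => ((VV (-1) a k : ℤ) : ℝ)) (T : ℝ)) (T : ℝ) := by
      have h3 := hLamr (-1)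
      revert p2 h3
      rw [hm']
      intro p2 h3
      exact chainOK_wit her1 hemr p2 h3
    have o1 := chainO_of (o := 2) (yw_even Z) (yw_odd Z) c1 (by omega)
      (fun k hk => by rw [Zz1 k hk, hz1, cast_zw]) (fun k hk => by rw [ZP1 k hk, hP1, cast_Pw])
    have o2 := chainO_of (o := 2 + 2 * a.length) (yw_even Z) (yw_odd Z) c2 (by omega)
      (fun k hk => by rw [Zz2 k hk, hz2, cast_zw]) (fun k hk => by rw [ZP2 k hk, hP2, cast_Pw])
    intro p hp
    simp only [allO, List.mem_cons, List.mem_append] at hp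
    rcases hp with rfl | rfl | hp | hp
    · have h0 := yw_even Z 0
      have h1 := yw_odd Z 0
      simp only [mul_zero, zero_add] at h0 h1
      simp only [h0, h1, Z0, hY]
      have : 0 < BB a * NN a := mul_pos (by linarith) hN
      linarith
    · have h0 := yw_even Z 1
      have h1 := yw_odd Z 1
      simp only [mul_one] at h0 h1
      rw [show 2 + 1 = 3 from rfl] at h1
      simp only [h0, h1, Z1]
      linarith
    · exact o1 p hp
    · exact o2 p hp
  · rw [allE_eq _ _ _ _ _ _ (yw_even Z) (yw_odd Z)]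
    have key : ((Q2 a.length (BB a) (4 ^ a.length) (NN a) (VV 1 a) (VV (-1) a)
        (fun k => Z (2 + 2 * k)) (fun k => Z (2 + 2 * k + 1))
        (fun k => Z (2 + 2 * a.length + 2 * k)) (fun k => Z (2 + 2 * a.length + 2 * k + 1))
        (Z 1) (Z 0) : ℤ) : ℝ) < 0 := by
      rw [Q2_cast, Z0, Z1]
      rw [Q2_congr a.length _ _ _ _ _ _ _ _ _
        (zw er (fun k => ((VV 1 a k : ℤ) : ℝ)))
        (Pw a.length er (fun k => ((VV 1 a k : ℤ) : ℝ)) (T : ℝ))
        (zw er (fun k => ((VV (-1) a k : ℤ) : ℝ)))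
        (Pw a.length er (fun k => ((VV (-1) a k : ℤ) : ℝ)) (T : ℝ)) _ _
        (fun k hk => by rw [Zz1 k hk, hz1, cast_zw]) (fun k hk => by rw [ZP1 k hk, hP1, cast_Pw])
        (fun k hk => by rw [Zz2 k hk, hz2, cast_zw]) (fun k hk => by rw [ZP2 k hk, hP2, cast_Pw])]
      have hXr : ∀ s : ℤ, (s = 1 ∨ s = -1) → 2 * ((VV s a a.length : ℤ) : ℝ) ≤
          (BB a : ℝ) * 2 ^ (a.length + 1) := by
        intro s hs
        have h1 := VV_le s hs a a.length
        have h2 : 2 * VV s a a.length ≤ BB a * 2 ^ (a.length + 1) := by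
          have h7 : BB a = AS a + 4 := rfl
          rw [pow_succ]
          linarith
        exact_mod_cast h2
      have h2X : (2 : ℝ) ^ a.length ≤ (BB a : ℝ) * 2 ^ (a.length + 1) := by
        have h1 : (1 : ℝ) ≤ (BB a : ℝ) := by
          have : 1 ≤ BB a := by linarith
          exact_mod_cast this
        have h2 : (0 : ℝ) < 2 ^ a.length := by positivity
        rw [pow_succ]
        nlinarith
      have hadd : ∀ k, ((VV 1 a k : ℤ) : ℝ) + ((VV (-1) a k : ℤ) : ℝ) =
          2 * (BB a : ℝ) * (2 ^ k - 1) := by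
        intro k
        have := VV_add a k
        exact_mod_cast this
      have hNr : ((NN a : ℤ) : ℝ) = 16 * (a.length : ℝ) * 4 ^ a.length *
          ((BB a : ℝ) * 2 ^ (a.length + 1)) ^ 3 := by
        unfold NN
        push_cast
        rfl
      have hB4 : (4 : ℝ) ≤ (BB a : ℝ) := by exact_mod_cast hB
      have x1 := hXr 1 (Or.inl rfl)
      have x2 := hXr (-1) (Or.inr rfl)
      have l1 := hLamr 1
      have l2 := hLamr (-1)
      rw [hY]
      push_cast
      clear_value T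
      revert p1 p2 x1 x2 h2X l1 l2 hTr hNr
      rw [hm']
      intro p1 p2 hTr h2X hNr x1 x2 l1 l2
      refine Q2_neg her1 hemr hB4 p1 p2 hadd x1 x2 h2X l1 l2 hTr ?_
      rw [hNr]
      push_cast
      ring
    have : Q2 a.length (BB a) (4 ^ a.length) (NN a) (VV 1 a) (VV (-1) a)
        (fun k => Z (2 + 2 * k)) (fun k => Z (2 + 2 * k + 1))
        (fun k => Z (2 + 2 * a.length + 2 * k)) (fun k => Z (2 + 2 * a.length + 2 * k + 1))
        (Z 1) (Z 0) < 0 := by exact_mod_cast key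
    linarith

end Pool.Agent.H699.TU
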