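import Pool.Graph.R_seed8.Y644.QS.PolyBase
import Pool.Agent.H699.TU.Main

/-!
# The instance is computable in polynomial time
-/

namespace Pool.Agent.H699.TU

open Pool.Agent.NPC

theorem take_eq_filter (l : List ℕ) (k s : ℕ) :
    l.take k = ((l.zipIdx s).filter (fun p => decide (p.2 < k + s))).map (fun p => p.1) := by
  induction l generalizing k s with
  | nil => simp
  | cons x l ih =>
    cases k with
    | zero =>
      simp only [List.take_zero, zero_add]
      symm
      rw [List.map_eq_nil_iff, List.filter_eq_nil_iff]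
      intro p hp
      have : s ≤ p.2 := by
        have := List.le_snd_of_mem_zipIdx hp
        exact this
      simp only [decide_eq_true_eq]
      omega
    | succ k =>
      have h : s < k + 1 + s := by omega
      simp only [List.take_succ_cons, List.zipIdx_cons, List.filter_cons, h, decide_true, if_true,
        List.map_cons]
      rw [ih k (s + 1)]
      have e : k + (s + 1) = k + 1 + s := by omega
      rw [e]

theorem poly_takeSum {α : Type} [TEnc α] {l : α → List ℕ} {k : α → ℕ} (hl : NPC.Poly l)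
    (hk : NPC.Poly k) : NPC.Poly (fun a => ((l a).take (k a)).sum) := by
  have h : NPC.Poly (fun a => (((l a).zipIdx.filter
      (fun p => decide (p.2 < k a + 0))).map (fun p => p.1)).sum) := by fun_prop
  exact h.congr fun a => by rw [← take_eq_filter]

theorem poly_len {α : Type} [TEnc α] {l : α → List ℕ} (hl : NPC.Poly l) :
    UPoly (fun a => (l a).length) := UPoly.length hl

theorem uPoly_min {α : Type} [TEnc α] {l : α → List ℕ} {k : α → ℕ} (hl : NPC.Poly l)
    (hk : NPC.Poly k) : UPoly (fun a => min (k a) ((l a).length)) :=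
  UPoly.of_le (NPC.Poly.min hk (NPC.Poly.length hl)) (UPoly.length hl) fun _ => min_le_right _ _

theorem poly_AS {α : Type} [TEnc α] {l : α → List ℕ} (hl : NPC.Poly l) :
    NPC.Poly (fun a => AS (l a)) := by
  unfold AS
  exact NPC.Poly.natCast_int (NPC.Poly.sum hl)

theorem poly_BB {α : Type} [TEnc α] {l : α → List ℕ} (hl : NPC.Poly l) :
    NPC.Poly (fun a => BB (l a)) := by
  unfold BB
  exact NPC.Poly.iadd (poly_AS hl) (NPC.Poly.const 4)

theorem poly_NN {α : Type} [TEnc α] {l : α → List ℕ} (hl : NPC.Poly l) :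
    NPC.Poly (fun a => NN (l a)) := by
  unfold NN
  have h1 : NPC.Poly (fun a => (4 : ℤ) ^ (l a).length) :=
    NPC.Poly.ipow (NPC.Poly.const 4) (UPoly.length hl)
  have h2 : NPC.Poly (fun a => (2 : ℤ) ^ ((l a).length + 1)) :=
    NPC.Poly.ipow (NPC.Poly.const 2) (UPoly.add (UPoly.length hl) (UPoly.const 1))
  have h3 := poly_BB hl
  have h4 : NPC.Poly (fun a => (BB (l a) * 2 ^ ((l a).length + 1)) ^ 3) :=
    NPC.Poly.ipow (NPC.Poly.imul h3 h2) (UPoly.const 3)
  have h5 : NPC.Poly (fun a => (((l a).length : ℕ) : ℤ)) :=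
    NPC.Poly.natCast_int (NPC.Poly.length hl)
  exact NPC.Poly.imul (NPC.Poly.imul (NPC.Poly.imul (NPC.Poly.const 16) h5) h1) h4

theorem poly_VV (s : ℤ) {α : Type} [TEnc α] {l : α → List ℕ} {k : α → ℕ} (hl : NPC.Poly l)
    (hk : NPC.Poly k) :
    NPC.Poly (fun a => BB (l a) * (2 ^ (min (k a) (l a).length) - 1) -
      s * ((((l a).take (k a)).sum : ℕ) : ℤ)) := by
  have h1 := poly_BB hl
  have h2 : NPC.Poly (fun a => (2 : ℤ) ^ (min (k a) (l a).length)) :=
    NPC.Poly.ipow (NPC.Poly.const 2) (uPoly_min hl hk)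
  have h3 := NPC.Poly.natCast_int (poly_takeSum hl hk)
  exact NPC.Poly.isub (NPC.Poly.imul h1 (NPC.Poly.isub h2 (NPC.Poly.const 1)))
    (NPC.Poly.imul (NPC.Poly.const s) h3)

theorem poly_bb (s : ℤ) {α : Type} [TEnc α] {l : α → List ℕ} {k : α → ℕ} (hl : NPC.Poly l)
    (hk : NPC.Poly k) : NPC.Poly (fun a => bb (l a).length (VV s (l a)) (k a)) := by
  have h1 := poly_VV s hl (NPC.Poly.add hk (NPC.Poly.const 1))
  have h2 := poly_VV s hl (NPC.Poly.length hl)
  have h3 : NPC.Poly (fun a => decide (k a + 1 < (l a).length)) :=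
    NPC.Poly.decide_lt (NPC.Poly.add hk (NPC.Poly.const 1)) (NPC.Poly.length hl)
  have h4 := NPC.Poly.cond h3 (NPC.Poly.imul (NPC.Poly.const (2 : ℤ)) h1) h2
  refine h4.congr fun a => ?_
  unfold bb VV
  by_cases h : k a + 1 < (l a).length
  · rw [decide_eq_true h, cond_true, if_pos h, min_eq_left h.le]
  · rw [decide_eq_false h, cond_false, if_neg h, min_self]

theorem poly_fw {α : Type} [TEnc α] {l : α → List ℕ} {k : α → ℕ} (hl : NPC.Poly l)
    (hk : NPC.Poly k) : NPC.Poly (fun a => (fw (l a).length (k a) : ℤ)) := by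
  have h2 : NPC.Poly (fun a => (2 : ℤ) ^ (min (k a) (l a).length)) :=
    NPC.Poly.ipow (NPC.Poly.const 2) (uPoly_min hl hk)
  have h3 : NPC.Poly (fun a => decide (k a + 1 < (l a).length)) :=
    NPC.Poly.decide_lt (NPC.Poly.add hk (NPC.Poly.const 1)) (NPC.Poly.length hl)
  have h4 := NPC.Poly.cond h3 h2 (NPC.Poly.const (0 : ℤ))
  refine h4.congr fun a => ?_
  unfold fw
  by_cases h : k a + 1 < (l a).length
  · rw [decide_eq_true h, cond_true, if_pos h, min_eq_left (by omega)]
  · rw [decide_eq_false h, cond_false, if_neg h]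

attribute [fun_prop] poly_BB poly_NN poly_bb poly_fw poly_AS

theorem poly_four {α : Type} [TEnc α] {l : α → List ℕ} (hl : NPC.Poly l) :
    NPC.Poly (fun a => (4 : ℤ) ^ (l a).length) :=
  NPC.Poly.ipow (NPC.Poly.const 4) (UPoly.length hl)

theorem poly_two {α : Type} [TEnc α] {l : α → List ℕ} (hl : NPC.Poly l) :
    NPC.Poly (fun a => (2 : ℤ) ^ (l a).length) :=
  NPC.Poly.ipow (NPC.Poly.const 2) (UPoly.length hl)

attribute [fun_prop] poly_four poly_two

theorem sum_range_list (m : ℕ) (f : ℕ → ℤ) :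
    ∑ k ∈ Finset.range m, f k = ((List.range m).map f).sum := by
  induction m with
  | zero => simp
  | succ m ih => rw [Finset.sum_range_succ, ih, List.range_succ]; simp

theorem poly_dir {α : Type} [TEnc α] {g : α → ℤ} {a b : α → ℕ} (hg : NPC.Poly g)
    (ha : NPC.Poly a) (hb : NPC.Poly b) : NPC.Poly (fun x => dir (g x) (a x) (b x)) := by
  unfold dir
  fun_prop

theorem poly_crs {α : Type} [TEnc α] {g : α → ℤ} {a b : α → ℕ} (hg : NPC.Poly g)
    (ha : NPC.Poly a) (hb : NPC.Poly b) : NPC.Poly (fun x => crs (g x) (a x) (b x)) := by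
  unfold crs
  fun_prop

theorem poly_M {α : Type} [TEnc α] {l : α → List ℕ} (c : ℤ) (hl : NPC.Poly l) :
    NPC.Poly (fun a => c * 4 ^ (l a).length) :=
  NPC.Poly.imul (NPC.Poly.const c) (poly_four hl)

theorem poly_N {α : Type} [TEnc α] {l : α → List ℕ} (hl : NPC.Poly l) :
    NPC.Poly (fun a => BB (l a) * NN (l a)) :=
  NPC.Poly.imul (poly_BB hl) (poly_NN hl)

theorem poly_cY (s : ℤ) :
    NPC.Poly (fun a : List ℕ => cY a.length (4 ^ a.length) (BB a * NN a) (VV s a)) := by
  have p1 : NPC.Poly (fun p : List ℕ × ℕ => p.1) := NPC.Poly.fst NPC.Poly.id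
  have p2 : NPC.Poly (fun p : List ℕ × ℕ => p.2) := NPC.Poly.snd NPC.Poly.id
  have b := poly_bb s p1 p2
  have f := poly_fw p1 p2
  have h0 : NPC.Poly (fun p : List ℕ × ℕ =>
      4 * (4 ^ p.1.length) * (BB p.1 * NN p.1) * bb p.1.length (VV s p.1) p.2 -
        2 * (4 ^ p.1.length) * (bb p.1.length (VV s p.1) p.2 * bb p.1.length (VV s p.1) p.2) +
          (BB p.1 * NN p.1) * fw p.1.length p.2) :=
    NPC.Poly.iadd (NPC.Poly.isub (NPC.Poly.imul (NPC.Poly.imul (poly_M 4 p1) (poly_N p1)) b)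
      (NPC.Poly.imul (poly_M 2 p1) (NPC.Poly.imul b b))) (NPC.Poly.imul (poly_N p1) f)
  have h1 : NPC.Poly (fun a : List ℕ => (List.range a.length).map (fun k =>
      4 * (4 ^ a.length) * (BB a * NN a) * bb a.length (VV s a) k -
        2 * (4 ^ a.length) * (bb a.length (VV s a) k * bb a.length (VV s a) k) +
          (BB a * NN a) * fw a.length k)) :=
    NPC.Poly.map (F := fun (a : List ℕ) k => 4 * (4 ^ a.length) * (BB a * NN a) *
      bb a.length (VV s a) k -
        2 * (4 ^ a.length) * (bb a.length (VV s a) k * bb a.length (VV s a) k) +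
          (BB a * NN a) * fw a.length k) (UPoly.range (UPoly.length NPC.Poly.id)) h0
  refine (NPC.Poly.isum h1).congr fun a => ?_
  unfold cY
  rw [sum_range_list]
  simp only [sq]

theorem poly_xn {α : Type} [TEnc α] {m o k : α → ℕ} (hm : NPC.Poly m) (ho : NPC.Poly o)
    (hk : NPC.Poly k) : NPC.Poly (fun a => xn (m a) (o a) (k a)) := by
  unfold xn
  fun_prop

attribute [fun_prop] poly_xn

theorem poly_chainE (s : ℤ) {o : List ℕ → ℕ} (ho : NPC.Poly o) :
    NPC.Poly (fun a : List ℕ => chainE a.length (4 ^ a.length) (BB a * NN a) (VV s a) (o a)) := by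
  have p1 : NPC.Poly (fun p : List ℕ × ℕ => p.1) := NPC.Poly.fst NPC.Poly.id
  have p2 : NPC.Poly (fun p : List ℕ × ℕ => p.2) := NPC.Poly.snd NPC.Poly.id
  have b := poly_bb s p1 p2
  have f := poly_fw p1 p2
  have o1 : NPC.Poly (fun p : List ℕ × ℕ => o p.1) := ho.comp p1
  have x1 : NPC.Poly (fun p : List ℕ × ℕ => xn p.1.length (o p.1) p.2) :=
    poly_xn (NPC.Poly.length p1) o1 p2
  have x2 : NPC.Poly (fun p : List ℕ × ℕ => o p.1 + 2 * p.2 + 1) := by fun_prop
  have x0 : NPC.Poly (fun _ : List ℕ × ℕ => 0) := NPC.Poly.const 0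
  have c1 : NPC.Poly (fun p : List ℕ × ℕ => 4 * 4 ^ p.1.length * (BB p.1 * NN p.1) ^ 2) :=
    NPC.Poly.imul (poly_M 4 p1) (NPC.Poly.ipow (poly_N p1) (UPoly.const 2))
  have c2 : NPC.Poly (fun p : List ℕ × ℕ =>
      4 * 4 ^ p.1.length * (BB p.1 * NN p.1) * bb p.1.length (VV s p.1) p.2) :=
    NPC.Poly.imul (NPC.Poly.imul (poly_M 4 p1) (poly_N p1)) b
  have c3 : NPC.Poly (fun p : List ℕ × ℕ =>
      4 * 4 ^ p.1.length * (BB p.1 * NN p.1) * bb p.1.length (VV s p.1) p.2 +
        2 * (BB p.1 * NN p.1) * fw p.1.length p.2) :=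
    NPC.Poly.iadd c2 (NPC.Poly.imul (NPC.Poly.imul (NPC.Poly.const 2) (poly_N p1)) f)
  have h0 : NPC.Poly (fun p : List ℕ × ℕ =>
      crs (4 * 4 ^ p.1.length * (BB p.1 * NN p.1) ^ 2) (o p.1 + 2 * p.2 + 1)
          (xn p.1.length (o p.1) p.2) ++
        (dir (4 * 4 ^ p.1.length * (BB p.1 * NN p.1) * bb p.1.length (VV s p.1) p.2)
            (o p.1 + 2 * p.2 + 1) 0 ++
          dir (4 * 4 ^ p.1.length * (BB p.1 * NN p.1) * bb p.1.length (VV s p.1) p.2 +
            2 * (BB p.1 * NN p.1) * fw p.1.length p.2) (xn p.1.length (o p.1) p.2) 0)) :=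
    NPC.Poly.append (poly_crs c1 x2 x1) (NPC.Poly.append (poly_dir c2 x2 x0) (poly_dir c3 x1 x0))
  exact NPC.Poly.flatMap (F := fun (a : List ℕ) k =>
    crs (4 * 4 ^ a.length * (BB a * NN a) ^ 2) (o a + 2 * k + 1) (xn a.length (o a) k) ++
      (dir (4 * 4 ^ a.length * (BB a * NN a) * bb a.length (VV s a) k) (o a + 2 * k + 1) 0 ++
        dir (4 * 4 ^ a.length * (BB a * NN a) * bb a.length (VV s a) k +
          2 * (BB a * NN a) * fw a.length k) (xn a.length (o a) k) 0))
    (UPoly.range (UPoly.length NPC.Poly.id)) h0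

theorem poly_chainO {o : List ℕ → ℕ} (ho : NPC.Poly o) :
    NPC.Poly (fun a : List ℕ => chainO a.length (o a)) := by
  unfold chainO ord
  fun_prop

theorem poly_allE : NPC.Poly (fun a : List ℕ =>
    allE a.length (BB a) (4 ^ a.length) (NN a) (VV 1 a) (VV (-1) a)) := by
  have i := NPC.Poly.id (α := List ℕ)
  have h1 := poly_cY 1
  have h2 := poly_cY (-1)
  have h3 := poly_chainE 1 (NPC.Poly.const 2)
  have h4 : NPC.Poly (fun a : List ℕ =>
      chainE a.length (4 ^ a.length) (BB a * NN a) (VV (-1) a) (2 + 2 * a.length)) :=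
    poly_chainE (-1) (by fun_prop)
  have t1 : NPC.Poly (fun a : List ℕ => (2 : ℤ) ^ a.length - 1) :=
    NPC.Poly.isub (poly_two i) (NPC.Poly.const 1)
  have h5 : NPC.Poly (fun a : List ℕ => VV 1 a a.length + VV (-1) a a.length) := by
    have h : NPC.Poly (fun a : List ℕ => 2 * BB a * (2 ^ a.length - 1)) :=
      NPC.Poly.imul (NPC.Poly.imul (NPC.Poly.const 2) (poly_BB i)) t1
    exact h.congr fun a => (VV_add a a.length).symm
  have h6 : NPC.Poly (fun a : List ℕ => -(BB a * (NN a) ^ 2 +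
      2 * 4 ^ a.length * (BB a * NN a) * (VV 1 a a.length + VV (-1) a a.length))) :=
    NPC.Poly.ineg (NPC.Poly.iadd (NPC.Poly.imul (poly_BB i) (NPC.Poly.ipow (poly_NN i)
      (UPoly.const 2))) (NPC.Poly.imul (NPC.Poly.imul (poly_M 2 i) (poly_N i)) h5))
  have h7 : NPC.Poly (fun a : List ℕ => -(cY a.length (4 ^ a.length) (BB a * NN a) (VV 1 a) +
      cY a.length (4 ^ a.length) (BB a * NN a) (VV (-1) a) -
      (BB a * (2 ^ a.length - 1) ^ 2 - 1))) :=
    NPC.Poly.ineg (NPC.Poly.isub (NPC.Poly.iadd h1 h2) (NPC.Poly.isub (NPC.Poly.imul (poly_BB i)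
      (NPC.Poly.ipow t1 (UPoly.const 2))) (NPC.Poly.const 1)))
  exact NPC.Poly.cons (NPC.Poly.pair h6 (NPC.Poly.const (2, 3)))
    (NPC.Poly.cons (NPC.Poly.pair h7 (NPC.Poly.const (0, 1))) (NPC.Poly.append h3 h4))

theorem poly_allO : NPC.Poly (fun a : List ℕ => allO a.length) := by
  have h3 := poly_chainO (NPC.Poly.const 2)
  have h4 : NPC.Poly (fun a : List ℕ => chainO a.length (2 + 2 * a.length)) :=
    poly_chainO (by fun_prop)
  unfold allO
  fun_prop

theorem poly_ent3 {α : Type} [TEnc α] {a b c j : α → ℕ} (ha : NPC.Poly a) (hb : NPC.Poly b)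
    (hc : NPC.Poly c) (hj : NPC.Poly j) : NPC.Poly (fun x => ent3 (a x) (b x) (c x) (j x)) := by
  unfold ent3
  fun_prop

attribute [fun_prop] poly_ent3

theorem poly_build {α : Type} [TEnc α] {K : α → ℕ} {O : α → List (ℕ × ℕ)}
    {E : α → List (ℤ × ℕ × ℕ)} (hK : UPoly K) (hO : NPC.Poly O) (hE : NPC.Poly E) :
    NPC.Poly (fun x => build (K x) (O x) (E x)) := by
  have hK' := hK.toPoly
  have h1 : UPoly (fun x => K x + (E x).length) := UPoly.add hK (UPoly.length hE)
  unfold build quads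
  fun_prop

theorem poly_instOf : NPC.Poly instOf := by
  have h1 : UPoly (fun a : List ℕ => numP a.length) := by
    unfold numP
    fun_prop
  exact poly_build h1 poly_allO poly_allE

end Pool.Agent.H699.TU
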