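import Mathlib

/-!
# Total unimodularity of network matrices with difference variables
-/

namespace Pool.Agent.H699.TU

open Matrix

/-- The entry of a difference row at column `j`. -/
def ent3 (a b c j : ℕ) : ℤ :=
  (if j = a then 1 else 0) - (if j = b then 1 else 0) - (if j = c then 1 else 0)

/-- Values `0, ±1`. -/
def U (x : ℤ) : Prop := x = 0 ∨ x = 1 ∨ x = -1

theorem U.neg {x : ℤ} (h : U x) : U (-x) := by
  rcases h with h | h | h <;> subst h <;> simp [U]

theorem U.mul {x y : ℤ} (h : U x) (h' : U y) : U (x * y) := by
  rcases h with h | h | h <;> rcases h' with h' | h' | h' <;> subst h <;> subst h' <;> simp [U]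

theorem U.pow_mul {x : ℤ} (h : U x) (k : ℕ) : U ((-1) ^ k * x) := by
  rcases neg_one_pow_eq_or ℤ k with h1 | h1 <;> rw [h1]
  · simpa using h
  · simpa using h.neg

theorem U.prod {ι : Type} (s : Finset ι) (f : ι → ℤ) (h : ∀ i ∈ s, U (f i)) : U (∏ i ∈ s, f i) := by
  classical
  induction s using Finset.induction_on with
  | empty => right; left; simp
  | insert i s hi ih =>
    rw [Finset.prod_insert hi]
    exact (h i (Finset.mem_insert_self _ _)).mul (ih fun j hj => h j (Finset.mem_insert_of_mem hj))

theorem U.mem_range {x : ℤ} (h : U x) : x ∈ Set.range (SignType.cast : SignType → ℤ) := by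
  rcases h with h | h | h
  · exact ⟨0, by simp [h]⟩
  · exact ⟨1, by simp [h]⟩
  · exact ⟨-1, by simp [h]⟩

theorem det3 (K : ℕ) : ∀ (k : ℕ) (g a b c : Fin k → ℕ), Function.Injective g →
    (∀ i, a i < K) → (∀ i, b i < K) → (∀ i, K ≤ c i) →
    (∀ i i', c i = c i' → a i = a i' ∧ b i = b i') →
    U (Matrix.of fun i j => ent3 (a i) (b i) (c i) (g j)).det := by
  intro k
  induction k with
  | zero => intro g a b c _ _ _ _ _; right; left; simp
  | succ k ih =>
    intro g a b c hg ha hb hc hcc
    set A : Matrix (Fin (k + 1)) (Fin (k + 1)) ℤ :=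
      Matrix.of fun i j => ent3 (a i) (b i) (c i) (g j) with hA
    have hminor : ∀ i j, U (A.submatrix (Fin.succAbove i) (Fin.succAbove j)).det := by
      intro i j
      exact ih (g ∘ Fin.succAbove j) (a ∘ Fin.succAbove i) (b ∘ Fin.succAbove i)
        (c ∘ Fin.succAbove i) (hg.comp Fin.succAbove_right_injective) (fun _ => ha _)
        (fun _ => hb _) (fun _ => hc _) (fun _ _ h => hcc _ _ h)
    by_cases hK : ∃ j₀, K ≤ g j₀
    · obtain ⟨j₀, hj₀⟩ := hK
      have hcol : ∀ i, A i j₀ = if c i = g j₀ then -1 else 0 := by
        intro i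
        have h1 : g j₀ ≠ a i := by have := ha i; omega
        have h2 : g j₀ ≠ b i := by have := hb i; omega
        simp only [hA, Matrix.of_apply, ent3, h1, h2, if_false]
        by_cases h3 : c i = g j₀
        · simp [h3]
        · have h4 : ¬ g j₀ = c i := fun h => h3 h.symm
          simp [h3, h4]
      by_cases h1 : ∃ i₀, c i₀ = g j₀
      · obtain ⟨i₀, hi₀⟩ := h1
        by_cases h2 : ∃ i₁, i₁ ≠ i₀ ∧ c i₁ = g j₀
        · obtain ⟨i₁, hi₁, hi₂⟩ := h2
          left
          refine Matrix.det_zero_of_row_eq hi₁ ?_
          funext j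
          obtain ⟨e1, e2⟩ := hcc i₁ i₀ (hi₂.trans hi₀.symm)
          simp only [hA, Matrix.of_apply, e1, e2, hi₂, hi₀]
        · push Not at h2
          rw [Matrix.det_succ_column A j₀, Finset.sum_eq_single i₀]
          · rw [hcol, if_pos hi₀, mul_assoc]
            exact U.pow_mul ((U.mul (Or.inr (Or.inr rfl)) (hminor i₀ j₀))) _
          · intro i _ hi
            rw [hcol, if_neg (h2 i hi)]
            ring
          · intro h; exact absurd (Finset.mem_univ _) h
      · push Not at h1
        left
        refine Matrix.det_eq_zero_of_column_eq_zero j₀ fun i => ?_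
        rw [hcol, if_neg (h1 i)]
    · push Not at hK
      have hent : ∀ i j, A i j = (if g j = a i then 1 else 0) - (if g j = b i then 1 else 0) := by
        intro i j
        have h3 : g j ≠ c i := by have := hc i; have := hK j; omega
        simp only [hA, Matrix.of_apply, ent3, h3, if_false, sub_zero]
      by_cases h1 : ∃ i₀, ¬ ((∃ j, g j = a i₀) ↔ (∃ j, g j = b i₀))
      · obtain ⟨i₀, hi₀⟩ := h1
        have single : ∃ (j₀ : Fin (k + 1)) (s : ℤ), U s ∧ A i₀ j₀ = s ∧
            ∀ j, j ≠ j₀ → A i₀ j = 0 := by
          by_cases h2 : ∃ j, g j = a i₀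
          · obtain ⟨j₀, hj₀⟩ := h2
            have h3 : ∀ j, g j ≠ b i₀ := by
              intro j hj
              exact hi₀ ⟨fun _ => ⟨j, hj⟩, fun _ => ⟨j₀, hj₀⟩⟩
            refine ⟨j₀, 1, Or.inr (Or.inl rfl), ?_, ?_⟩
            · rw [hent, if_pos hj₀, if_neg (h3 _)]; norm_num
            · intro j hj
              rw [hent, if_neg (h3 _), if_neg]
              · norm_num
              · intro h4
                exact hj (hg (h4.trans hj₀.symm))
          · by_cases h4 : ∃ j, g j = b i₀
            · obtain ⟨j₀, hj₀⟩ := h4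
              push Not at h2
              refine ⟨j₀, -1, Or.inr (Or.inr rfl), ?_, ?_⟩
              · rw [hent, if_neg (h2 _), if_pos hj₀]; norm_num
              · intro j hj
                rw [hent, if_neg (h2 _), if_neg]
                · norm_num
                · intro h5
                  exact hj (hg (h5.trans hj₀.symm))
            · exact absurd ⟨fun h => absurd h h2, fun h => absurd h h4⟩ hi₀
        obtain ⟨j₀, s, hs, h3, h4⟩ := single
        rw [Matrix.det_succ_row A i₀, Finset.sum_eq_single j₀]
        · rw [h3, mul_assoc]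
          exact U.pow_mul (U.mul hs (hminor i₀ j₀)) _
        · intro j _ hj
          rw [h4 j hj]; ring
        · intro h; exact absurd (Finset.mem_univ _) h
      · push Not at h1
        left
        rw [← Matrix.exists_mulVec_eq_zero_iff]
        refine ⟨fun _ => 1, fun h => ?_, ?_⟩
        · have := congrFun h 0
          simp at this
        · funext i
          simp only [Matrix.mulVec, dotProduct, mul_one, Pi.zero_apply, hent,
            Finset.sum_sub_distrib]
          have key : ∀ v : ℕ, (∑ j, if g j = v then (1 : ℤ) else 0) =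
              if ∃ j, g j = v then 1 else 0 := by
            intro v
            split_ifs with h
            · obtain ⟨j₀, hj₀⟩ := h
              rw [Finset.sum_eq_single j₀]
              · rw [if_pos hj₀]
              · intro j _ hj
                rw [if_neg fun h => hj (hg (h.trans hj₀.symm))]
              · intro h; exact absurd (Finset.mem_univ _) h
            · push Not at h
              exact Finset.sum_eq_zero fun j _ => if_neg (h j)
          rw [key, key]
          by_cases h5 : ∃ j, g j = a i
          · rw [if_pos h5, if_pos ((h1 i).1 h5)]; norm_num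
          · rw [if_neg h5, if_neg fun h6 => h5 ((h1 i).2 h6)]; norm_num

/-- A matrix whose rows are signed difference rows is totally unimodular. -/
theorem isTU_of {ι κ : Type} (K : ℕ) (W : Matrix ι κ ℤ) (g : κ → ℕ) (hg : Function.Injective g)
    (s : ι → ℤ) (hs : ∀ i, U (s i)) (a b c : ι → ℕ) (ha : ∀ i, a i < K) (hb : ∀ i, b i < K)
    (hc : ∀ i, K ≤ c i) (hcc : ∀ i i', c i = c i' → a i = a i' ∧ b i = b i')
    (hW : ∀ i j, W i j = s i * ent3 (a i) (b i) (c i) (g j)) : W.IsTotallyUnimodular := by
  intro k f h hf hh
  refine U.mem_range ?_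
  have e : W.submatrix f h = Matrix.of fun i j => s (f i) *
      (Matrix.of fun (i : Fin k) (j : Fin k) =>
        ent3 (a (f i)) (b (f i)) (c (f i)) (g (h j))) i j := by
    funext i j
    simp [hW]
  rw [e, Matrix.det_mul_column]
  refine U.mul (U.prod _ _ fun i _ => hs _) ?_
  exact det3 K k (g ∘ h) (a ∘ f) (b ∘ f) (c ∘ f) (hg.comp hh) (fun _ => ha _) (fun _ => hb _)
    (fun _ => hc _) (fun _ _ h => hcc _ _ h)

end Pool.Agent.H699.TU
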