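import Pool.Agent.H699.TU.Defs
import Pool.Agent.H699.TU.Det

/-!
# Instances built from potentials
-/

namespace Pool.Agent.H699.TU

open Finset

/-- The signed rows `s (x_a - x_b - x_c) ≤ 0`. -/
def quads (K : ℕ) (O : List (ℕ × ℕ)) (E : List (ℤ × ℕ × ℕ)) : List (ℤ × ℕ × ℕ × ℕ) :=
  O.zipIdx.map (fun p => ((1 : ℤ), p.1.1, p.1.2, K + E.length + p.2)) ++
    (E.zipIdx.map (fun p => ((1 : ℤ), p.1.2.1, p.1.2.2, K + p.2)) ++
      E.zipIdx.map (fun p => ((-1 : ℤ), p.1.2.1, p.1.2.2, K + p.2)))

/-- The instance with `K` potentials, order constraints `x_a ≤ x_b` for `(a, b) ∈ O`, and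
objective the sum of `w (x_a - x_b) ^ 2` over `(w, a, b) ∈ E`. -/
def build (K : ℕ) (O : List (ℕ × ℕ)) (E : List (ℤ × ℕ × ℕ)) : Inst :=
  ((quads K O E).map (fun q => (List.range (K + E.length)).map fun j =>
      q.1 * ent3 q.2.1 q.2.2.1 q.2.2.2 j),
    (quads K O E).map (fun _ => 0),
    (List.range K).map (fun _ => 0) ++ E.map (fun e => e.1),
    (List.range (K + E.length)).map fun _ => 0)

/-- The energy of potentials. -/
def energy (E : List (ℤ × ℕ × ℕ)) (x : ℕ → ℤ) : ℤ :=
  (E.map fun e => e.1 * (x e.2.1 - x e.2.2) ^ 2).sum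

/-- All potentials are among the first `K`. -/
def InRange (K : ℕ) (O : List (ℕ × ℕ)) (E : List (ℤ × ℕ × ℕ)) : Prop :=
  (∀ p ∈ O, p.1 < K ∧ p.2 < K) ∧ (∀ e ∈ E, e.2.1 < K ∧ e.2.2 < K)

theorem mem_quads {K : ℕ} {O : List (ℕ × ℕ)} {E : List (ℤ × ℕ × ℕ)} {q : ℤ × ℕ × ℕ × ℕ} :
    q ∈ quads K O E ↔ (∃ i a b, O[i]? = some (a, b) ∧ q = (1, a, b, K + E.length + i)) ∨
      (∃ k w a b, E[k]? = some (w, a, b) ∧
        (q = (1, a, b, K + k) ∨ q = (-1, a, b, K + k))) := by
  unfold quads
  simp only [List.mem_append, List.mem_map]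
  constructor
  · rintro (⟨⟨⟨a, b⟩, i⟩, h, rfl⟩ | ⟨⟨⟨w, a, b⟩, k⟩, h, rfl⟩ | ⟨⟨⟨w, a, b⟩, k⟩, h, rfl⟩)
    · left
      exact ⟨i, a, b, List.mem_zipIdx_iff_getElem?.1 h, rfl⟩
    · right
      exact ⟨k, w, a, b, List.mem_zipIdx_iff_getElem?.1 h, Or.inl rfl⟩
    · right
      exact ⟨k, w, a, b, List.mem_zipIdx_iff_getElem?.1 h, Or.inr rfl⟩
  · rintro (⟨i, a, b, h, rfl⟩ | ⟨k, w, a, b, h, rfl | rfl⟩)
    · left
      exact ⟨((a, b), i), List.mem_zipIdx_iff_getElem?.2 h, rfl⟩
    · right; left
      exact ⟨((w, a, b), k), List.mem_zipIdx_iff_getElem?.2 h, rfl⟩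
    · right; right
      exact ⟨((w, a, b), k), List.mem_zipIdx_iff_getElem?.2 h, rfl⟩

theorem numV_build (K : ℕ) (O : List (ℕ × ℕ)) (E : List (ℤ × ℕ × ℕ)) :
    numV (build K O E) = K + E.length := by
  simp [numV, build, quad]

theorem numC_build (K : ℕ) (O : List (ℕ × ℕ)) (E : List (ℤ × ℕ × ℕ)) :
    numC (build K O E) = (quads K O E).length := by
  simp [numC, build, rows]

theorem W_build (K : ℕ) (O : List (ℕ × ℕ)) (E : List (ℤ × ℕ × ℕ))
    (i : Fin (numC (build K O E))) (j : Fin (numV (build K O E))) :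
    W (build K O E) i j = ((quads K O E)[(i : ℕ)]'(by rw [← numC_build]; exact i.2)).1 *
      ent3 ((quads K O E)[(i : ℕ)]'(by rw [← numC_build]; exact i.2)).2.1
        ((quads K O E)[(i : ℕ)]'(by rw [← numC_build]; exact i.2)).2.2.1
        ((quads K O E)[(i : ℕ)]'(by rw [← numC_build]; exact i.2)).2.2.2 j := by
  have hi : (i : ℕ) < (quads K O E).length := by rw [← numC_build]; exact i.2
  have hj : (j : ℕ) < K + E.length := by rw [← numV_build K O E]; exact j.2
  simp only [W, rows, build]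
  have e1 : ((quads K O E).map (fun q => (List.range (K + E.length)).map fun j =>
      q.1 * ent3 q.2.1 q.2.2.1 q.2.2.2 j)).getD (i : ℕ) [] =
      (List.range (K + E.length)).map fun j => (quads K O E)[(i : ℕ)].1 *
        ent3 (quads K O E)[(i : ℕ)].2.1 (quads K O E)[(i : ℕ)].2.2.1
          (quads K O E)[(i : ℕ)].2.2.2 j := by
    rw [List.getD_eq_getElem _ _ (by simpa using hi), List.getElem_map]
  rw [e1, List.getD_eq_getElem _ _ (by simpa using hj), List.getElem_map, List.getElem_range]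

theorem build_isTU {K : ℕ} {O : List (ℕ × ℕ)} {E : List (ℤ × ℕ × ℕ)} (h : InRange K O E) :
    (W (build K O E)).IsTotallyUnimodular := by
  set L := quads K O E with hL
  have hlen : ∀ i : Fin (numC (build K O E)), (i : ℕ) < L.length := fun i => by
    rw [hL, ← numC_build]; exact i.2
  have hmem : ∀ i : Fin (numC (build K O E)), L[(i : ℕ)]'(hlen i) ∈ L := fun i =>
    List.getElem_mem _
  have prop : ∀ q ∈ L, U q.1 ∧ q.2.1 < K ∧ q.2.2.1 < K ∧ K ≤ q.2.2.2 := by
    intro q hq
    rcases mem_quads.1 hq with ⟨i, a, b, h1, rfl⟩ | ⟨k, w, a, b, h1, rfl | rfl⟩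
    · have := h.1 _ (List.mem_of_getElem? h1)
      exact ⟨Or.inr (Or.inl rfl), this.1, this.2, by simp only; omega⟩
    · have := h.2 _ (List.mem_of_getElem? h1)
      exact ⟨Or.inr (Or.inl rfl), this.1, this.2, by simp only; omega⟩
    · have := h.2 _ (List.mem_of_getElem? h1)
      exact ⟨Or.inr (Or.inr rfl), this.1, this.2, by simp only; omega⟩
  have prop2 : ∀ q ∈ L, ∀ q' ∈ L, q.2.2.2 = q'.2.2.2 → q.2.1 = q'.2.1 ∧ q.2.2.1 = q'.2.2.1 := by
    intro q hq q' hq'
    have hlt : ∀ {k : ℕ} {e : ℤ × ℕ × ℕ}, E[k]? = some e → k < E.length := by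
      intro k e h1
      exact (List.getElem?_eq_some_iff.1 h1).1
    rcases mem_quads.1 hq with ⟨i, a, b, h1, rfl⟩ | ⟨k, w, a, b, h1, rfl | rfl⟩ <;>
    rcases mem_quads.1 hq' with ⟨i', a', b', h2, rfl⟩ | ⟨k', w', a', b', h2, rfl | rfl⟩ <;>
    intro h3 <;> simp only at h3 ⊢
    · have : i = i' := by omega
      subst this
      rw [h1] at h2
      simp only [Option.some.injEq, Prod.mk.injEq] at h2
      exact h2
    · have := hlt h2; omega
    · have := hlt h2; omega
    · have := hlt h1; omega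
    · have : k = k' := by omega
      subst this
      rw [h1] at h2
      simp only [Option.some.injEq, Prod.mk.injEq] at h2
      exact h2.2
    · have : k = k' := by omega
      subst this
      rw [h1] at h2
      simp only [Option.some.injEq, Prod.mk.injEq] at h2
      exact h2.2
    · have := hlt h1; omega
    · have : k = k' := by omega
      subst this
      rw [h1] at h2
      simp only [Option.some.injEq, Prod.mk.injEq] at h2
      exact h2.2
    · have : k = k' := by omega
      subst this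
      rw [h1] at h2
      simp only [Option.some.injEq, Prod.mk.injEq] at h2
      exact h2.2
  exact isTU_of K (W (build K O E)) (fun j => (j : ℕ)) Fin.val_injective
    (fun i => (L[(i : ℕ)]'(hlen i)).1) (fun i => (prop _ (hmem i)).1)
    (fun i => (L[(i : ℕ)]'(hlen i)).2.1) (fun i => (L[(i : ℕ)]'(hlen i)).2.2.1)
    (fun i => (L[(i : ℕ)]'(hlen i)).2.2.2) (fun i => (prop _ (hmem i)).2.1)
    (fun i => (prop _ (hmem i)).2.2.1) (fun i => (prop _ (hmem i)).2.2.2)
    (fun i i' hc => prop2 _ (hmem i) _ (hmem i') hc) (fun i j => W_build K O E i j)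

theorem build_valid {K : ℕ} {O : List (ℕ × ℕ)} {E : List (ℤ × ℕ × ℕ)} (h : InRange K O E)
    (hK : 1 ≤ K) (hO : O ≠ []) : Valid (build K O E) := by
  refine ⟨by rw [numV_build]; omega, ?_, ?_, ?_, ?_, build_isTU h⟩
  · rw [numC_build]
    have : 0 < O.length := List.length_pos_iff.2 hO
    simp only [quads, List.length_append, List.length_map, List.length_zipIdx]
    omega
  · intro r hr
    rw [numV_build]
    simp only [build, rows, List.mem_map] at hr
    obtain ⟨q, _, rfl⟩ := hr
    simp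
  · rw [numC_build]; simp [rhs, build]
  · rw [numV_build]; simp [lin, build]

theorem numConcave_build (K : ℕ) (O : List (ℕ × ℕ)) (E : List (ℤ × ℕ × ℕ)) :
    numConcave (build K O E) = (E.filter fun e => decide (e.1 < 0)).length := by
  unfold numConcave
  simp only [quad, build, List.filter_append, List.length_append]
  have h1 : ((List.range K).map (fun _ => (0 : ℤ))).filter (fun q => decide (q < 0)) = [] := by
    rw [List.filter_eq_nil_iff]
    intro a ha
    simp only [List.mem_map] at ha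
    obtain ⟨_, _, rfl⟩ := ha
    simp
  rw [h1, List.filter_map, List.length_map]
  simp [Function.comp_def]

/-- The extension of a point by zero. -/
def ext {n : ℕ} (x : Fin n → ℤ) (j : ℕ) : ℤ := if h : j < n then x ⟨j, h⟩ else 0

theorem sum_ite_ext {n : ℕ} (x : Fin n → ℤ) (a : ℕ) :
    ∑ j : Fin n, (if (j : ℕ) = a then (1 : ℤ) else 0) * x j = ext x a := by
  unfold ext
  split_ifs with h
  · rw [Finset.sum_eq_single ⟨a, h⟩]
    · simp
    · intro j _ hj
      rw [if_neg (fun h' => hj (Fin.ext h')), zero_mul]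
    · intro h; exact absurd (Finset.mem_univ _) h
  · refine Finset.sum_eq_zero fun j _ => ?_
    rw [if_neg (by have := j.2; omega), zero_mul]

theorem sum_row {n : ℕ} (x : Fin n → ℤ) (s : ℤ) (a b c : ℕ) :
    ∑ j : Fin n, s * ent3 a b c j * x j = s * (ext x a - ext x b - ext x c) := by
  have h : ∀ j : Fin n, s * ent3 a b c j * x j = s * ((if (j : ℕ) = a then (1 : ℤ) else 0) * x j) -
      s * ((if (j : ℕ) = b then (1 : ℤ) else 0) * x j) -
      s * ((if (j : ℕ) = c then (1 : ℤ) else 0) * x j) := by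
    intro j; unfold ent3; ring
  rw [Finset.sum_congr rfl fun j _ => h j, Finset.sum_sub_distrib, Finset.sum_sub_distrib,
    ← Finset.mul_sum, ← Finset.mul_sum, ← Finset.mul_sum, sum_ite_ext, sum_ite_ext, sum_ite_ext]
  ring

theorem feasible_build {K : ℕ} {O : List (ℕ × ℕ)} {E : List (ℤ × ℕ × ℕ)}
    (x : Fin (numV (build K O E)) → ℤ) :
    Feasible (build K O E) x ↔ (∀ p ∈ O, ext x p.1 ≤ ext x p.2) ∧
      (∀ k w a b, E[k]? = some (w, a, b) → ext x (K + k) = ext x a - ext x b) := by
  have h0 : ∀ c, K + E.length ≤ c → ext x c = 0 := by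
    intro c hc
    unfold ext
    rw [dif_neg]
    rw [numV_build]; omega
  have h1 : Feasible (build K O E) x ↔
      ∀ q ∈ quads K O E, q.1 * (ext x q.2.1 - ext x q.2.2.1 - ext x q.2.2.2) ≤ 0 := by
    unfold Feasible
    have hr : ∀ i, (rhs (build K O E)).getD i 0 = 0 := by
      intro i
      simp only [rhs, build, List.getD_eq_getElem?_getD, List.getElem?_map]
      cases (quads K O E)[i]? <;> simp
    constructor
    · intro h q hq
      obtain ⟨i, hi, rfl⟩ := List.mem_iff_getElem.1 hq
      have h2 := h ⟨i, by rw [numC_build]; exact hi⟩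
      rw [hr] at h2
      simp only [W_build] at h2
      rw [sum_row] at h2
      exact h2
    · intro h i
      have hi : (i : ℕ) < (quads K O E).length := by rw [← numC_build]; exact i.2
      rw [hr]
      simp only [W_build]
      rw [sum_row]
      exact h _ (List.getElem_mem hi)
  rw [h1]
  constructor
  · intro h
    refine ⟨fun p hp => ?_, fun k w a b hk => ?_⟩
    · obtain ⟨i, hi, hpi⟩ := List.mem_iff_getElem.1 hp
      have h2 := h (1, p.1, p.2, K + E.length + i) (mem_quads.2 (Or.inl ⟨i, p.1, p.2, by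
        rw [List.getElem?_eq_getElem hi, hpi], rfl⟩))
      simp only at h2
      rw [h0 (K + E.length + i) (by omega)] at h2
      linarith
    · have h2 := h (1, a, b, K + k) (mem_quads.2 (Or.inr ⟨k, w, a, b, hk, Or.inl rfl⟩))
      have h3 := h (-1, a, b, K + k) (mem_quads.2 (Or.inr ⟨k, w, a, b, hk, Or.inr rfl⟩))
      simp only at h2 h3
      linarith
  · rintro ⟨h2, h3⟩ q hq
    rcases mem_quads.1 hq with ⟨i, a, b, h4, rfl⟩ | ⟨k, w, a, b, h4, rfl | rfl⟩
    · have := h2 _ (List.mem_of_getElem? h4)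
      simp only
      rw [h0 (K + E.length + i) (by omega)]
      simp only at this
      linarith
    · have := h3 k w a b h4
      simp only
      linarith
    · have := h3 k w a b h4
      simp only
      linarith

theorem sum_fin_append {n : ℕ} (l : List ℤ) (x : ℕ → ℤ) (hn : n = l.length) :
    ∑ j : Fin n, l.getD j 0 * x j ^ 2 = ∑ j ∈ range l.length, l.getD j 0 * x j ^ 2 := by
  subst hn
  exact Fin.sum_univ_eq_sum_range (fun j => l.getD j 0 * x j ^ 2) l.length

theorem energy_eq_sum (E : List (ℤ × ℕ × ℕ)) (x : ℕ → ℤ) :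
    energy E x = ∑ k ∈ range E.length,
      (E.getD k (0, 0, 0)).1 * (x (E.getD k (0, 0, 0)).2.1 - x (E.getD k (0, 0, 0)).2.2) ^ 2 := by
  unfold energy
  rw [← Fin.sum_univ_eq_sum_range, ← List.sum_ofFn]
  congr 1
  apply List.ext_getElem
  · simp
  · intro i h1 h2
    simp only [List.getElem_map, List.getElem_ofFn]
    have hi : i < E.length := by simpa using h1
    rw [List.getD_eq_getElem _ _ hi]

theorem obj_build {K : ℕ} {O : List (ℕ × ℕ)} {E : List (ℤ × ℕ × ℕ)}
    (x : Fin (numV (build K O E)) → ℤ) (hx : Feasible (build K O E) x) :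
    obj (build K O E) x = energy E (ext x) := by
  have hl : ∀ j, (lin (build K O E)).getD j 0 = 0 := by
    intro j
    simp only [lin, build, List.getD_eq_getElem?_getD, List.getElem?_map]
    cases (List.range (K + E.length))[j]? <;> simp
  have h1 : obj (build K O E) x = ∑ j : Fin (numV (build K O E)),
      (quad (build K O E)).getD j 0 * ext x j ^ 2 := by
    unfold obj
    refine Finset.sum_congr rfl fun j _ => ?_
    rw [hl, zero_mul, add_zero]
    congr 2
    unfold ext
    rw [dif_pos j.2]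
  rw [h1]
  have h1' : ∑ j : Fin (numV (build K O E)), (quad (build K O E)).getD j 0 * ext x j ^ 2 =
      ∑ j ∈ range (quad (build K O E)).length, (quad (build K O E)).getD j 0 * ext x j ^ 2 :=
    sum_fin_append (quad (build K O E)) (ext x) rfl
  rw [h1']
  have hlen : (quad (build K O E)).length = K + E.length := by simp [quad, build]
  rw [hlen, Finset.sum_range_add]
  have h2 : ∑ j ∈ range K, (quad (build K O E)).getD j 0 * ext x j ^ 2 = 0 := by
    refine Finset.sum_eq_zero fun j hj => ?_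
    have hj := Finset.mem_range.1 hj
    have : (quad (build K O E)).getD j 0 = 0 := by
      simp only [quad, build, List.getD_eq_getElem?_getD]
      rw [List.getElem?_append_left (by simpa using hj), List.getElem?_map]
      cases (List.range K)[j]? <;> simp
    rw [this, zero_mul]
  rw [h2, zero_add, energy_eq_sum]
  refine Finset.sum_congr rfl fun k hk => ?_
  have hk := Finset.mem_range.1 hk
  have h3 : (quad (build K O E)).getD (K + k) 0 = (E.getD k (0, 0, 0)).1 := by
    simp only [quad, build, List.getD_eq_getElem?_getD]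
    rw [List.getElem?_append_right (by simp)]
    simp only [List.length_map, List.length_range, Nat.add_sub_cancel_left, List.getElem?_map]
    rw [List.getElem?_eq_getElem hk]
    simp
  rw [h3]
  have h4 := (feasible_build x).1 hx
  have h5 := h4.2 k (E.getD k (0, 0, 0)).1 (E.getD k (0, 0, 0)).2.1 (E.getD k (0, 0, 0)).2.2 (by
    rw [List.getElem?_eq_getElem hk, List.getD_eq_getElem _ _ hk])
  rw [h5]

/-- The point given by potentials. -/
def pt (K : ℕ) (O : List (ℕ × ℕ)) (E : List (ℤ × ℕ × ℕ)) (y : ℕ → ℤ) :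
    Fin (numV (build K O E)) → ℤ := fun j =>
  if (j : ℕ) < K then y j else
    y (E.getD (j - K) (0, 0, 0)).2.1 - y (E.getD (j - K) (0, 0, 0)).2.2

theorem ext_pt {K : ℕ} {O : List (ℕ × ℕ)} {E : List (ℤ × ℕ × ℕ)} (y : ℕ → ℤ) {j : ℕ} (hj : j < K) :
    ext (pt K O E y) j = y j := by
  unfold ext pt
  rw [dif_pos (by rw [numV_build]; omega), if_pos hj]

theorem pt_feasible {K : ℕ} {O : List (ℕ × ℕ)} {E : List (ℤ × ℕ × ℕ)} (h : InRange K O E)
    (y : ℕ → ℤ) (hy : ∀ p ∈ O, y p.1 ≤ y p.2) : Feasible (build K O E) (pt K O E y) := by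
  rw [feasible_build]
  refine ⟨fun p hp => ?_, fun k w a b hk => ?_⟩
  · have := h.1 p hp
    rw [ext_pt y this.1, ext_pt y this.2]
    exact hy p hp
  · have h1 := h.2 _ (List.mem_of_getElem? hk)
    rw [ext_pt y h1.1, ext_pt y h1.2]
    have hk' := (List.getElem?_eq_some_iff.1 hk).1
    unfold ext pt
    rw [dif_pos (by rw [numV_build]; omega)]
    simp only
    rw [if_neg (by omega), Nat.add_sub_cancel_left, List.getD_eq_getElem?_getD, hk]
    rfl

theorem energy_congr {K : ℕ} {O : List (ℕ × ℕ)} {E : List (ℤ × ℕ × ℕ)} (h : InRange K O E)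
    (y y' : ℕ → ℤ) (hy : ∀ j < K, y j = y' j) : energy E y = energy E y' := by
  unfold energy
  congr 1
  refine List.map_congr_left fun e he => ?_
  have := h.2 e he
  rw [hy _ this.1, hy _ this.2]

theorem obj_pt {K : ℕ} {O : List (ℕ × ℕ)} {E : List (ℤ × ℕ × ℕ)} (h : InRange K O E)
    (y : ℕ → ℤ) (hy : ∀ p ∈ O, y p.1 ≤ y p.2) :
    obj (build K O E) (pt K O E y) = energy E y := by
  rw [obj_build _ (pt_feasible h y hy)]
  exact energy_congr h _ _ fun j hj => ext_pt y hj

end Pool.Agent.H699.TU
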