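import Mathlib

/-!
# Folding chains: the piecewise linear functions of signed sums
-/

namespace Pool.Agent.H699.TU

/-- `S V i t` is the sum of `(t - λ)⁺` over the `2 ^ i` signed sums `λ = ∑_{k<i} ± (V (k+1) - V k)`. -/
noncomputable def S (V : ℕ → ℝ) : ℕ → ℝ → ℝ
  | 0, t => max t 0
  | i + 1, t => S V i (t - (V (i + 1) - V i)) + S V i (t + (V (i + 1) - V i))

theorem S_nonneg (V : ℕ → ℝ) (i : ℕ) : ∀ t, 0 ≤ S V i t := by
  induction i with
  | zero => intro t; exact le_max_right _ _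
  | succ i ih => intro t; exact add_nonneg (ih _) (ih _)

theorem S_mono (V : ℕ → ℝ) (i : ℕ) : ∀ t t', t ≤ t' → S V i t ≤ S V i t' := by
  induction i with
  | zero => intro t t' h; exact max_le_max h le_rfl
  | succ i ih => intro t t' h; exact add_le_add (ih _ _ (by linarith)) (ih _ _ (by linarith))

theorem S_lip (V : ℕ → ℝ) (i : ℕ) : ∀ t t', t ≤ t' → S V i t' ≤ S V i t + 2 ^ i * (t' - t) := by
  induction i with
  | zero =>
    intro t t' h
    simp only [S, pow_zero, one_mul]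
    rcases le_total t 0 with h1 | h1 <;> rcases le_total t' 0 with h2 | h2 <;>
      simp [max_eq_left, max_eq_right, h1, h2] <;> linarith
  | succ i ih =>
    intro t t' h
    have h1 := ih (t - (V (i + 1) - V i)) (t' - (V (i + 1) - V i)) (by linarith)
    have h2 := ih (t + (V (i + 1) - V i)) (t' + (V (i + 1) - V i)) (by linarith)
    simp only [S]
    have e : (2 : ℝ) ^ (i + 1) * (t' - t) = 2 ^ i * (t' - t) + 2 ^ i * (t' - t) := by ring
    rw [e]
    have e1 : t' - (V (i + 1) - V i) - (t - (V (i + 1) - V i)) = t' - t := by ring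
    have e2 : t' + (V (i + 1) - V i) - (t + (V (i + 1) - V i)) = t' - t := by ring
    rw [e1] at h1
    rw [e2] at h2
    linarith

theorem S_symm (V : ℕ → ℝ) (i : ℕ) : ∀ t, S V i t - S V i (-t) = 2 ^ i * t := by
  induction i with
  | zero =>
    intro t
    simp only [S, pow_zero, one_mul]
    rcases le_total t 0 with h1 | h1
    · rw [max_eq_right h1, max_eq_left (by linarith)]; ring
    · rw [max_eq_left h1, max_eq_right (by linarith)]; ring
  | succ i ih =>
    intro t
    have h1 := ih (t - (V (i + 1) - V i))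
    have h2 := ih (t + (V (i + 1) - V i))
    simp only [S]
    have e1 : -(t - (V (i + 1) - V i)) = -t + (V (i + 1) - V i) := by ring
    have e2 : -(t + (V (i + 1) - V i)) = -t - (V (i + 1) - V i) := by ring
    rw [e1] at h1
    rw [e2] at h2
    have e : (2 : ℝ) ^ (i + 1) * t = 2 ^ i * (t - (V (i + 1) - V i)) +
      2 ^ i * (t + (V (i + 1) - V i)) := by ring
    rw [e]
    linarith

theorem S_ge (V : ℕ → ℝ) (i : ℕ) (t : ℝ) : 2 ^ i * t ≤ S V i t := by
  have := S_symm V i t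
  have := S_nonneg V i (-t)
  linarith

theorem S_zero (V : ℕ → ℝ) (m : ℕ) (h0 : V 0 = 0) (hV : ∀ k < m, V k ≤ V (k + 1)) (i : ℕ)
    (hi : i ≤ m) : ∀ t, t ≤ -V i → S V i t = 0 := by
  induction i with
  | zero =>
    intro t ht
    rw [h0] at ht
    simp only [S]
    exact max_eq_right (by linarith)
  | succ i ih =>
    intro t ht
    have h1 := hV i (by omega)
    simp only [S]
    rw [ih (by omega) _ (by linarith), ih (by omega) _ (by linarith), add_zero]

/-- The folding inequality. -/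
theorem S_fold (V : ℕ → ℝ) (m : ℕ) (h0 : V 0 = 0) (hV : ∀ k < m, V k ≤ V (k + 1)) (i : ℕ)
    (hi : i < m) (hd : V i ≤ V (i + 1) - V i) (t t' : ℝ)
    (ht : t' ≤ (V (i + 1) - V i) - |t|) :
    S V (i + 1) t ≤ S V i t' + 2 ^ i * (t + (V (i + 1) - V i) - t') := by
  set v := V (i + 1) - V i with hv
  have h1 := S_lip V i t' (v - |t|) ht
  have h2 : S V (i + 1) t ≤ S V i (v - |t|) + 2 ^ i * (t + |t|) := by
    simp only [S]
    rw [← hv]
    rcases le_total 0 t with h | h
    · rw [abs_of_nonneg h]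
      have h3 := S_symm V i (v - t)
      have e : -(v - t) = t - v := by ring
      rw [e] at h3
      have h4 := S_symm V i (t + v)
      have h5 := S_zero V m h0 hV i hi.le (-(t + v)) (by linarith)
      rw [h5] at h4
      have e2 : (2 : ℝ) ^ i * (t + t) = 2 ^ i * (t + v) - 2 ^ i * (v - t) := by ring
      rw [e2]
      linarith
    · rw [abs_of_nonpos h]
      have h5 := S_zero V m h0 hV i hi.le (t - v) (by linarith)
      rw [h5]
      have e : v - -t = t + v := by ring
      rw [e]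
      have e2 : t + -t = 0 := by ring
      rw [e2]
      linarith
  have e : (2 : ℝ) ^ i * (t + v - t') = 2 ^ i * (t + |t|) + 2 ^ i * (v - |t| - t') := by ring
  rw [e]
  linarith

/-- The cost of a chain. -/
theorem chain_ge (V : ℕ → ℝ) (m : ℕ) (h0 : V 0 = 0) (hV : ∀ k < m, V k ≤ V (k + 1))
    (hd : ∀ k < m, V k ≤ V (k + 1) - V k) (z r : ℕ → ℝ) (hz0 : 0 ≤ z 0)
    (h1 : ∀ k < m, z k ≤ z (k + 1) + |r k|)
    (h2 : ∀ k < m, z k ≤ 2 * V (k + 1) - z (k + 1) + r k) (i : ℕ) (hi : i ≤ m) :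
    S V i (z i - V i) ≤ z 0 + ∑ k ∈ Finset.range i, 2 ^ k * (z (k + 1) - z k) +
      ∑ k ∈ Finset.range i, 2 ^ k * |r k| := by
  induction i with
  | zero =>
    simp only [S, h0, sub_zero, Finset.range_zero, Finset.sum_empty, add_zero]
    rw [max_eq_left hz0]
  | succ i ih =>
    have ih := ih (by omega)
    have hr := le_abs_self (r i)
    have a1 := h1 i (by omega)
    have a2 := h2 i (by omega)
    have h3 := S_fold V m h0 hV i (by omega) (hd i (by omega)) (z (i + 1) - V (i + 1))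
      (z i - |r i| - V i) (by
        rcases abs_cases (z (i + 1) - V (i + 1)) with ⟨h, _⟩ | ⟨h, _⟩ <;> rw [h] <;> linarith)
    have h4 := S_mono V i (z i - |r i| - V i) (z i - V i) (by
      have := abs_nonneg (r i)
      linarith)
    rw [Finset.sum_range_succ, Finset.sum_range_succ]
    have e : (2 : ℝ) ^ i * (z (i + 1) - V (i + 1) + (V (i + 1) - V i) - (z i - |r i| - V i)) =
      2 ^ i * (z (i + 1) - z i) + 2 ^ i * |r i| := by ring
    rw [e] at h3
    linarith

theorem tele (z : ℕ → ℝ) (m : ℕ) :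
    z 0 + ∑ k ∈ Finset.range (m + 1), 2 ^ k * (z (k + 1) - z k) =
      2 ^ m * z (m + 1) - ∑ k ∈ Finset.range m, 2 ^ k * z (k + 1) := by
  induction m with
  | zero => simp
  | succ m ih =>
    rw [Finset.sum_range_succ, ← add_assoc, ih, Finset.sum_range_succ _ m]
    ring

/-- All signed sums `s ± a_0 ± ... ± a_{i-1}` have absolute value at least one. -/
def Far (a : ℕ → ℝ) : ℕ → ℝ → Prop
  | 0, s => 1 ≤ |s|
  | i + 1, s => Far a i (s + a i) ∧ Far a i (s - a i)

theorem far_of (a : ℕ → ℤ) (i : ℕ) : ∀ s : ℤ, (∀ e : ℕ → ℤ, (∀ k, e k = 1 ∨ e k = -1) →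
    s + ∑ k ∈ Finset.range i, e k * a k ≠ 0) → Far (fun k => (a k : ℝ)) i (s : ℝ) := by
  induction i with
  | zero =>
    intro s h
    have h1 := h (fun _ => 1) (fun _ => Or.inl rfl)
    simp only [Finset.range_zero, Finset.sum_empty, add_zero] at h1
    simp only [Far]
    exact_mod_cast Int.one_le_abs h1
  | succ i ih =>
    intro s h
    have key : ∀ c : ℤ, (c = 1 ∨ c = -1) → Far (fun k => (a k : ℝ)) i ((s + c * a i : ℤ) : ℝ) := by
      intro c hc
      refine ih _ fun e he h1 => ?_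
      refine h (Function.update e i c) (fun k => ?_) ?_
      · by_cases hk : k = i
        · subst hk; simpa using hc
        · simpa [hk] using he k
      · rw [Finset.sum_range_succ, Function.update_self]
        rw [Finset.sum_congr rfl (g := fun k => e k * a k)]
        · linarith
        · intro k hk
          rw [Function.update_of_ne]
          have := Finset.mem_range.1 hk
          omega
    refine ⟨?_, ?_⟩
    · have := key 1 (Or.inl rfl)
      push_cast at this
      simpa using this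
    · have := key (-1) (Or.inr rfl)
      push_cast at this
      have e : (s : ℝ) + -1 * (a i : ℝ) = (s : ℝ) - (a i : ℝ) := by ring
      rw [e] at this
      exact this

/-- The lower bound for a pair of chains. -/
theorem pair_ge (B : ℝ) (hB : 1 ≤ B) (a : ℕ → ℝ) (V1 V2 : ℕ → ℝ) (m : ℕ)
    (h1 : ∀ k < m, V1 (k + 1) - V1 k = B * 2 ^ k - a k)
    (h2 : ∀ k < m, V2 (k + 1) - V2 k = B * 2 ^ k + a k) (i : ℕ) (hi : i ≤ m) :
    ∀ t s, Far a i s → |t| ≤ B * (2 ^ i + 1) - 1 →
      ((t + B * 2 ^ i) ^ 2 - B ^ 2) / (2 * B) + 1 - 1 / (2 * B) ≤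
        S V1 i (t + s) + S V2 i (t - s) := by
  have hB0 : 0 < B := by linarith
  induction i with
  | zero =>
    intro t s hs ht
    simp only [Far] at hs
    simp only [S, pow_zero, mul_one]
    have e : ((t + B) ^ 2 - B ^ 2) / (2 * B) + 1 - 1 / (2 * B) =
      t + 1 + (t ^ 2 - 1) / (2 * B) := by field_simp; ring
    rw [e]
    have ht1 : |t| ≤ 2 * B - 1 := by
      simp only [pow_zero] at ht
      linarith
    have h3 : 2 * max t 0 + max (1 - |t|) 0 ≤ max (t + s) 0 + max (t - s) 0 := by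
      rcases le_total 0 s with hs0 | hs0
      · rw [abs_of_nonneg hs0] at hs
        rcases abs_cases t with ⟨h, h'⟩ | ⟨h, h'⟩ <;> rw [h] <;>
        rcases max_cases t 0 with ⟨g1, g1'⟩ | ⟨g1, g1'⟩ <;>
        rcases max_cases (1 - t) 0 with ⟨g2, g2'⟩ | ⟨g2, g2'⟩ <;>
        rcases max_cases (1 - -t) 0 with ⟨g3, g3'⟩ | ⟨g3, g3'⟩ <;>
        rcases max_cases (t + s) 0 with ⟨g4, g4'⟩ | ⟨g4, g4'⟩ <;>
        rcases max_cases (t - s) 0 with ⟨g5, g5'⟩ | ⟨g5, g5'⟩ <;>
        simp only [g1, g2, g3, g4, g5] <;> linarith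
      · rw [abs_of_nonpos hs0] at hs
        rcases abs_cases t with ⟨h, h'⟩ | ⟨h, h'⟩ <;> rw [h] <;>
        rcases max_cases t 0 with ⟨g1, g1'⟩ | ⟨g1, g1'⟩ <;>
        rcases max_cases (1 - t) 0 with ⟨g2, g2'⟩ | ⟨g2, g2'⟩ <;>
        rcases max_cases (1 - -t) 0 with ⟨g3, g3'⟩ | ⟨g3, g3'⟩ <;>
        rcases max_cases (t + s) 0 with ⟨g4, g4'⟩ | ⟨g4, g4'⟩ <;>
        rcases max_cases (t - s) 0 with ⟨g5, g5'⟩ | ⟨g5, g5'⟩ <;>
        simp only [g1, g2, g3, g4, g5] <;> linarith
    refine le_trans ?_ h3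
    have h4 : (t ^ 2 - 1) / (2 * B) ≤ max (|t| - 1) 0 := by
      rw [div_le_iff₀ (by linarith)]
      have hsq : t ^ 2 = |t| ^ 2 := (sq_abs t).symm
      rw [hsq]
      have h0 := abs_nonneg t
      rcases max_cases (|t| - 1) 0 with ⟨g, g'⟩ | ⟨g, g'⟩
      · rw [g]; nlinarith
      · rw [g]; nlinarith
    rcases max_cases (|t| - 1) 0 with ⟨g, g'⟩ | ⟨g, g'⟩ <;> rw [g] at h4 <;>
    rcases abs_cases t with ⟨h, h'⟩ | ⟨h, h'⟩ <;>
    rcases max_cases t 0 with ⟨g1, g1'⟩ | ⟨g1, g1'⟩ <;>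
    rcases max_cases (1 - |t|) 0 with ⟨g2, g2'⟩ | ⟨g2, g2'⟩ <;>
    rw [g1, g2] <;> linarith
  | succ i ih =>
    intro t s hs ht
    obtain ⟨hs1, hs2⟩ := hs
    have e1 := h1 i (by omega)
    have e2 := h2 i (by omega)
    simp only [S]
    rw [e1, e2]
    have r1 : t + s - (B * 2 ^ i - a i) = (t - B * 2 ^ i) + (s + a i) := by ring
    have r2 : t + s + (B * 2 ^ i - a i) = (t + B * 2 ^ i) + (s - a i) := by ring
    have r3 : t - s - (B * 2 ^ i + a i) = (t - B * 2 ^ i) - (s + a i) := by ring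
    have r4 : t - s + (B * 2 ^ i + a i) = (t + B * 2 ^ i) - (s - a i) := by ring
    rw [r1, r2, r3, r4]
    have hp : (2 : ℝ) ^ (i + 1) = 2 * 2 ^ i := by ring
    have hp0 : (0 : ℝ) < 2 ^ i := by positivity
    have hp1 : (1 : ℝ) ≤ 2 ^ i := one_le_pow₀ (by norm_num)
    rw [abs_le, hp] at ht
    rcases le_total 0 t with h0 | h0
    · have g1 := ih (by omega) (t - B * 2 ^ i) (s + a i) hs1 (by
        rw [abs_le]; constructor <;> nlinarith [ht.1, ht.2])
      have g2 := S_ge V1 i (t + B * 2 ^ i + (s - a i))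
      have g3 := S_ge V2 i (t + B * 2 ^ i - (s - a i))
      have e : ((t + B * 2 ^ (i + 1)) ^ 2 - B ^ 2) / (2 * B) + 1 - 1 / (2 * B) =
        (((t - B * 2 ^ i) + B * 2 ^ i) ^ 2 - B ^ 2) / (2 * B) + 1 - 1 / (2 * B) +
        (2 ^ i * (t + B * 2 ^ i + (s - a i)) + 2 ^ i * (t + B * 2 ^ i - (s - a i))) := by
        rw [hp]; field_simp; ring
      rw [e]
      linarith
    · have g1 := ih (by omega) (t + B * 2 ^ i) (s - a i) hs2 (by
        rw [abs_le]; constructor <;> nlinarith [ht.1, ht.2])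
      have g2 := S_nonneg V1 i (t - B * 2 ^ i + (s + a i))
      have g3 := S_nonneg V2 i (t - B * 2 ^ i - (s + a i))
      have e : ((t + B * 2 ^ (i + 1)) ^ 2 - B ^ 2) / (2 * B) + 1 - 1 / (2 * B) =
        (((t + B * 2 ^ i) + B * 2 ^ i) ^ 2 - B ^ 2) / (2 * B) + 1 - 1 / (2 * B) := by
        rw [hp]; ring
      rw [e]
      linarith

end Pool.Agent.H699.TU
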