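import Pool.Agent.H699.TU.Form

/-!
# The witness for a vanishing signed sum
-/

namespace Pool.Agent.H699.TU

open Finset

/-- Partial signed sums. -/
def Lam {R : Type} [CommRing R] (e : ℕ → R) (V : ℕ → R) (k : ℕ) : R :=
  ∑ j ∈ range k, e j * (V (j + 1) - V j)

/-- Partial signed sums of the powers of two. -/
def oo {R : Type} [CommRing R] (e : ℕ → R) (k : ℕ) : R := ∑ j ∈ range k, e j * 2 ^ j

/-- The levels of the witness. -/
def zw {R : Type} [CommRing R] (e : ℕ → R) (V : ℕ → R) (k : ℕ) : R :=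
  V (k + 1) - e k * Lam e V (k + 1)

/-- The auxiliary values of the witness. -/
def Pw {R : Type} [CommRing R] (m : ℕ) (e : ℕ → R) (V : ℕ → R) (T : R) (k : ℕ) : R :=
  bb m V k - xx m (zw e V) T k

theorem Lam_succ (e V : ℕ → ℝ) (k : ℕ) : Lam e V (k + 1) = Lam e V k + e k * (V (k + 1) - V k) := by
  unfold Lam; rw [Finset.sum_range_succ]

theorem sq_sign {e : ℕ → ℝ} (he : ∀ k, e k = 1 ∨ e k = -1) (k : ℕ) : e k * e k = 1 := by
  rcases he k with h | h <;> rw [h] <;> norm_num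

theorem Lam_abs {e : ℕ → ℝ} (he : ∀ k, e k = 1 ∨ e k = -1) {m : ℕ} {V : ℕ → ℝ} (hV : ParamOK m V)
    (k : ℕ) (hk : k ≤ m) : |Lam e V k| ≤ V k := by
  induction k with
  | zero => simp [Lam, hV.V0]
  | succ k ih =>
    have ih := ih (by omega)
    have h1 := hV.mono k (by omega)
    rw [Lam_succ]
    rw [abs_le] at ih ⊢
    rcases he k with h | h <;> rw [h] <;> constructor <;> linarith

theorem Lam_pos {e : ℕ → ℝ} (he : ∀ k, e k = 1 ∨ e k = -1) {m : ℕ} {V : ℕ → ℝ} (hV : ParamOK m V)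
    (k : ℕ) (hk : k < m) : 0 ≤ e k * Lam e V (k + 1) := by
  have h1 := abs_le.1 (Lam_abs he hV k hk.le)
  have h2 := hV.dbl k hk
  rw [Lam_succ]
  rcases he k with h | h <;> rw [h] <;> linarith

theorem zw_eq {e : ℕ → ℝ} (he : ∀ k, e k = 1 ∨ e k = -1) (V : ℕ → ℝ) (k : ℕ) :
    zw e V k = V k - e k * Lam e V k := by
  have h := sq_sign he k
  rw [zw, Lam_succ]
  linear_combination (-(V (k + 1) - V k)) * h

theorem zw_bounds {e : ℕ → ℝ} (he : ∀ k, e k = 1 ∨ e k = -1) {m : ℕ} {V : ℕ → ℝ}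
    (hV : ParamOK m V) (k : ℕ) (hk : k < m) : 0 ≤ zw e V k ∧ zw e V k ≤ V (k + 1) := by
  constructor
  · rw [zw_eq he]
    have h1 := abs_le.1 (Lam_abs he hV k hk.le)
    rcases he k with h | h <;> rw [h] <;> linarith
  · rw [zw]
    have := Lam_pos he hV k hk
    linarith

theorem V_le {m : ℕ} {V : ℕ → ℝ} (hV : ParamOK m V) (k : ℕ) (hk : k ≤ m) : V k ≤ V m := by
  have : ∀ j, k + j ≤ m → V k ≤ V (k + j) := by
    intro j
    induction j with
    | zero => intro _; exact le_rfl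
    | succ j ih => intro h; exact (ih (by omega)).trans (hV.mono (k + j) (by omega))
  have h := this (m - k) (by omega)
  rwa [Nat.add_sub_cancel' hk] at h

theorem chainOK_wit {e : ℕ → ℝ} (he : ∀ k, e k = 1 ∨ e k = -1) {m' : ℕ} (hem : e m' = 1)
    {V : ℕ → ℝ} (hV : ParamOK (m' + 1) V) {T : ℝ} (hT : T = Lam e V (m' + 1)) :
    ChainOK (m' + 1) (zw e V) (Pw (m' + 1) e V T) T where
  z0 := (zw_bounds he hV 0 (by omega)).1
  zP k hk := by
    unfold Pw bb xx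
    by_cases hk1 : k + 1 < m' + 1
    · rw [if_pos hk1, if_pos hk1, zw_eq he V (k + 1), zw]
      have h1 := Lam_pos he hV k hk
      rcases he k with h | h <;> rcases he (k + 1) with h' | h' <;> rw [h] at h1 ⊢ <;> rw [h'] <;>
        linarith
    · have : k = m' := by omega
      subst this
      rw [if_neg hk1, if_neg hk1, zw, hem, ← hT, one_mul]
  zz k hk := by
    rw [zw_eq he V (k + 1), zw]
    have h1 := Lam_pos he hV k (by omega)
    rcases he k with h | h <;> rcases he (k + 1) with h' | h' <;> rw [h] at h1 ⊢ <;> rw [h'] <;>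
      linarith
  T0 := by
    have := Lam_pos he hV m' (by omega)
    rw [hem, one_mul, ← hT] at this
    exact this

theorem Pw_bounds {e : ℕ → ℝ} (he : ∀ k, e k = 1 ∨ e k = -1) {m' : ℕ} (hem : e m' = 1)
    {V : ℕ → ℝ} (hV : ParamOK (m' + 1) V) {T : ℝ} (hT : T = Lam e V (m' + 1)) (k : ℕ)
    (hk : k < m' + 1) : 0 ≤ Pw (m' + 1) e V T k ∧ Pw (m' + 1) e V T k ≤ 2 * V (m' + 1) := by
  have c := chainOK_wit he hem hV hT
  refine ⟨(c.nonneg k hk).trans (c.zP k hk), ?_⟩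
  unfold Pw bb xx
  have h0 := hV.nonneg (m' + 1) le_rfl
  by_cases hk1 : k + 1 < m' + 1
  · rw [if_pos hk1, if_pos hk1]
    have h1 := (zw_bounds he hV (k + 1) hk1).1
    have h2 := V_le hV (k + 1) (by omega)
    linarith
  · rw [if_neg hk1, if_neg hk1]
    have h1 := c.T0
    linarith

theorem oo_ident {e : ℕ → ℝ} (he : ∀ k, e k = 1 ∨ e k = -1) (m' : ℕ) :
    4 * ∑ k ∈ range m', 2 ^ k * (2 ^ (k + 2) - 1 - e (k + 1) * oo e (k + 2)) =
      (2 ^ (m' + 1) - 1) ^ 2 - oo e (m' + 1) ^ 2 := by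
  have hs : ∀ k, oo e (k + 1) = oo e k + e k * 2 ^ k := by
    intro k; unfold oo; rw [Finset.sum_range_succ]
  induction m' with
  | zero =>
    simp only [range_zero, sum_empty, oo]
    have h := sq_sign he 0
    simp only [zero_add, pow_one, mul_zero, sum_range_succ, range_zero, sum_empty, pow_zero,
      mul_one]
    linear_combination h
  | succ m ih =>
    rw [Finset.sum_range_succ, mul_add, ih]
    have e1 := hs (m + 1)
    have h := sq_sign he (m + 1)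
    rw [show m + 1 + 1 = m + 2 from rfl] at e1 ⊢
    rw [e1]
    have p1 : (2 : ℝ) ^ (m + 1) = 2 * 2 ^ m := by ring
    have p2 : (2 : ℝ) ^ (m + 2) = 4 * 2 ^ m := by ring
    rw [p1, p2]
    linear_combination (-4 * (2 ^ m) ^ 2) * h

/-- The value of the form at the witness. -/
theorem Phi_wit {e : ℕ → ℝ} (he : ∀ k, e k = 1 ∨ e k = -1) {m' : ℕ} {B : ℝ} (hB : 0 < B) (M : ℝ)
    {V1 V2 : ℕ → ℝ} (hs : ∀ k, V1 k + V2 k = 2 * B * (2 ^ k - 1)) {T : ℝ}
    (hT1 : T = B * oo e (m' + 1)) :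
    Phi m' B M V1 V2 (zw e V1) (Pw (m' + 1) e V1 T) (zw e V2) (Pw (m' + 1) e V2 T) T = -1 := by
  have hr : ∀ (V : ℕ → ℝ), ∑ k ∈ range (m' + 1),
      2 * M * (Pw (m' + 1) e V T k + xx (m' + 1) (zw e V) T k - bb (m' + 1) V k) ^ 2 = 0 := by
    intro V
    refine Finset.sum_eq_zero fun k _ => ?_
    rw [Pw]; ring
  have hL : ∀ k, Lam e V1 k + Lam e V2 k = 2 * B * oo e k := by
    intro k
    unfold Lam oo
    rw [← Finset.sum_add_distrib, Finset.mul_sum]
    refine Finset.sum_congr rfl fun j _ => ?_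
    have h1 := hs j
    have h2 := hs (j + 1)
    have p1 : (2 : ℝ) ^ (j + 1) = 2 * 2 ^ j := by ring
    rw [p1] at h2
    linear_combination e j * h2 - e j * h1
  have hz : ∑ k ∈ range m', 2 ^ k * zw e V1 (k + 1) + ∑ k ∈ range m', 2 ^ k * zw e V2 (k + 1) =
      2 * B * ∑ k ∈ range m', 2 ^ k * (2 ^ (k + 2) - 1 - e (k + 1) * oo e (k + 2)) := by
    rw [← Finset.sum_add_distrib, Finset.mul_sum]
    refine Finset.sum_congr rfl fun k _ => ?_
    have h1 := hs (k + 2)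
    have h2 := hL (k + 2)
    simp only [zw]
    rw [show k + 1 + 1 = k + 2 from rfl]
    linear_combination 2 ^ k * h1 - 2 ^ k * e (k + 1) * h2
  have key := oo_ident he m'
  unfold Phi
  rw [hr, hr, hT1]
  have e3 : (B * oo e (m' + 1)) ^ 2 / B = B * oo e (m' + 1) ^ 2 := by field_simp
  rw [e3]
  linear_combination (-2) * hz - B * key

theorem err_le {m' : ℕ} {M N X : ℝ} (hM : 1 ≤ M) (hN : 0 ≤ N) {V : ℕ → ℝ}
    (hV : ∀ k ≤ m' + 1, 0 ≤ V k) (hX : ∀ k ≤ m' + 1, 2 * V k ≤ X) (h2 : 2 ^ (m' + 1) ≤ X)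
    {z P : ℕ → ℝ} (hz : ∀ k < m' + 1, 0 ≤ z k ∧ z k ≤ X) (hP : ∀ k < m' + 1, 0 ≤ P k ∧ P k ≤ X) :
    err m' M N V z P ≤ 5 * (m' + 1) * M * N * X ^ 3 := by
  have hX0 : 0 ≤ X := le_trans (by positivity) h2
  have hb : ∀ k < m' + 1, 0 ≤ bb (m' + 1) V k ∧ bb (m' + 1) V k ≤ X := by
    intro k hk
    unfold bb
    split_ifs
    · exact ⟨mul_nonneg (by norm_num) (hV _ (by omega)), hX _ (by omega)⟩
    · have := hV (m' + 1) le_rfl
      have := hX (m' + 1) le_rfl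
      exact ⟨hV _ le_rfl, by linarith⟩
  unfold err
  have h1 : ∑ k ∈ range (m' + 1), 2 * M * N * bb (m' + 1) V k * P k ^ 2 ≤
      ∑ k ∈ range (m' + 1), 2 * M * N * X * X ^ 2 := by
    refine Finset.sum_le_sum fun k hk => ?_
    have hk := Finset.mem_range.1 hk
    have b1 := hb k hk
    have b2 := hP k hk
    have : 0 ≤ 2 * M * N := by positivity
    gcongr
    · exact b1.2
    · exact b2.1
    · exact b2.2
  have h3 : ∑ k ∈ range m', (2 * M * N * bb (m' + 1) V k + N * 2 ^ k) * z (k + 1) ^ 2 ≤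
      ∑ k ∈ range m', (2 * M * N * X + N * X) * X ^ 2 := by
    refine Finset.sum_le_sum fun k hk => ?_
    have hk := Finset.mem_range.1 hk
    have b1 := hb k (by omega)
    have b2 := hz (k + 1) (by omega)
    have b3 : (2 : ℝ) ^ k ≤ X := le_trans (pow_le_pow_right₀ (by norm_num) (by omega)) h2
    have : 0 ≤ 2 * M * N := by positivity
    gcongr
    · exact b1.2
    · exact b2.1
    · exact b2.2
  rw [Finset.sum_const, Finset.card_range, nsmul_eq_mul] at h1 h3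
  have h4 : N * X ^ 3 ≤ M * N * X ^ 3 := by
    have : 0 ≤ N * X ^ 3 := by positivity
    nlinarith
  have h5 : (0 : ℝ) ≤ m' := Nat.cast_nonneg _
  push_cast at h1
  have h6 : (m' : ℝ) * ((2 * M * N * X + N * X) * X ^ 2) ≤ m' * (3 * (M * N * X ^ 3)) := by
    apply mul_le_mul_of_nonneg_left _ h5
    nlinarith
  have h7 : 0 ≤ M * N * X ^ 3 := by positivity
  have h8 : 0 ≤ (m' : ℝ) * (M * N * X ^ 3) := mul_nonneg h5 h7
  nlinarith

/-- The form takes a negative value if there is a vanishing signed sum. -/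
theorem Q2_neg {e : ℕ → ℝ} (he : ∀ k, e k = 1 ∨ e k = -1) {m' : ℕ} (hem : e m' = 1) {B X : ℝ}
    (hB : 4 ≤ B) {V1 V2 : ℕ → ℝ} (hV1 : ParamOK (m' + 1) V1) (hV2 : ParamOK (m' + 1) V2)
    (hs : ∀ k, V1 k + V2 k = 2 * B * (2 ^ k - 1))
    (hX1 : 2 * V1 (m' + 1) ≤ X) (hX2 : 2 * V2 (m' + 1) ≤ X) (h2 : 2 ^ (m' + 1) ≤ X)
    {T : ℝ} (hT1 : T = Lam e V1 (m' + 1)) (hT2 : T = Lam e V2 (m' + 1))
    (hT3 : T = B * oo e (m' + 1)) {N' : ℝ} (hN : N' = 16 * (m' + 1) * 4 ^ (m' + 1) * X ^ 3) :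
    Q2 (m' + 1) B (4 ^ (m' + 1)) N' V1 V2 (zw e V1) (Pw (m' + 1) e V1 T) (zw e V2)
      (Pw (m' + 1) e V2 T) T (B * N') < 0 := by
  have hB0 : 0 < B := by linarith
  have hX0 : 0 < X := lt_of_lt_of_le (by positivity) h2
  have hN0 : 0 < N' := by rw [hN]; positivity
  rw [Q2_hom m' B _ N' hB0.ne' V1 V2 _ _ _ _ (zw e V1) (Pw (m' + 1) e V1 T) (zw e V2)
      (Pw (m' + 1) e V2 T) T (B * N') T (fun k => rfl) (fun k => rfl)
      (fun k => rfl) (fun k => rfl) rfl, Phi_wit he hB0 _ hs hT3]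
  have key : ∀ V : ℕ → ℝ, ParamOK (m' + 1) V → 2 * V (m' + 1) ≤ X → T = Lam e V (m' + 1) →
      err m' (4 ^ (m' + 1)) (B * N') V (zw e V) (Pw (m' + 1) e V T) ≤
        5 * (m' + 1) * 4 ^ (m' + 1) * (B * N') * X ^ 3 := by
    intro V hV hX hT
    refine err_le (one_le_pow₀ (by norm_num)) (by positivity) (fun k hk => hV.nonneg k hk)
      (fun k hk => ?_) h2 (fun k hk => ?_) (fun k hk => ?_)
    · have := V_le hV k hk
      linarith
    · have h3 := zw_bounds he hV k hk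
      have h4 := V_le hV (k + 1) (by omega)
      have h5 := hV.nonneg (m' + 1) le_rfl
      exact ⟨h3.1, by linarith⟩
    · have h3 := Pw_bounds he hem hV hT k hk
      exact ⟨h3.1, by linarith⟩
  have k1 := key V1 hV1 hX1 hT1
  have k2 := key V2 hV2 hX2 hT2
  have e5 : 5 * ((m' : ℝ) + 1) * 4 ^ (m' + 1) * (B * N') * X ^ 3 = 5 / 16 * (B * N' * N') := by
    rw [hN]; ring
  rw [e5] at k1 k2
  have h6 : B * N' * N' * 4 ≤ (B * N') ^ 2 := by
    have : 0 ≤ B * N' * N' := by positivity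
    nlinarith
  have h7 : 0 < B * N' * N' := by positivity
  linarith

end Pool.Agent.H699.TU
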