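import Pool.Agent.H699.TU.Build
import Pool.Agent.H699.TU.Wit

/-!
# The double cover
-/

namespace Pool.Agent.H699.TU

open Finset

/-- a direct edge of the signed graph -/
def dir (g : ℤ) (a b : ℕ) : List (ℤ × ℕ × ℕ) := [(g, 2 * a, 2 * b), (g, 2 * a + 1, 2 * b + 1)]

/-- a crossing edge of the signed graph -/
def crs (g : ℤ) (a b : ℕ) : List (ℤ × ℕ × ℕ) := [(g, 2 * a, 2 * b + 1), (g, 2 * a + 1, 2 * b)]

/-- an order constraint of the signed graph -/
def ord (a b : ℕ) : List (ℕ × ℕ) := [(2 * a, 2 * b), (2 * b + 1, 2 * a + 1)]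

/-- partner of the auxiliary node -/
def xn (m o k : ℕ) : ℕ := if k + 1 < m then o + 2 * (k + 1) else 1

/-- edges of a chain -/
def chainE (m : ℕ) (M N : ℤ) (V : ℕ → ℤ) (o : ℕ) : List (ℤ × ℕ × ℕ) :=
  (List.range m).flatMap fun k =>
    crs (4 * M * N ^ 2) (o + 2 * k + 1) (xn m o k) ++
      (dir (4 * M * N * bb m V k) (o + 2 * k + 1) 0 ++
        dir (4 * M * N * bb m V k + 2 * N * fw m k) (xn m o k) 0)

/-- order constraints of a chain -/
def chainO (m o : ℕ) : List (ℕ × ℕ) :=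
  (2 * o + 1, 2 * o) :: (List.range m).flatMap fun k =>
    ord (o + 2 * k) (o + 2 * k + 1) ++
      (if k + 1 < m then ord (o + 2 * k) (o + 2 * (k + 1)) else [])

/-- all edges -/
def allE (m : ℕ) (B M N' : ℤ) (V1 V2 : ℕ → ℤ) : List (ℤ × ℕ × ℕ) :=
  (-(B * N' ^ 2 + 2 * M * (B * N') * (V1 m + V2 m)), 2, 3) ::
    (-(cY m M (B * N') V1 + cY m M (B * N') V2 - (B * (2 ^ m - 1) ^ 2 - 1)), 0, 1) ::
      (chainE m M (B * N') V1 2 ++ chainE m M (B * N') V2 (2 + 2 * m))

/-- all order constraints -/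
def allO (m : ℕ) : List (ℕ × ℕ) := (1, 0) :: (3, 2) :: (chainO m 2 ++ chainO m (2 + 2 * m))

/-- number of potentials -/
def numP (m : ℕ) : ℕ := 4 + 8 * m

theorem inRange_all {m : ℕ} (hm : 1 ≤ m) (B M N' : ℤ) (V1 V2 : ℕ → ℤ) :
    InRange (numP m) (allO m) (allE m B M N' V1 V2) := by
  have hO : ∀ o, o + 2 * m ≤ 2 + 4 * m → ∀ p ∈ chainO m o, 1 ≤ m → p.1 < numP m ∧ p.2 < numP m := by
    intro o ho p hp hm
    simp only [chainO, List.mem_cons, List.mem_flatMap, List.mem_range, List.mem_append, ord,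
      List.not_mem_nil, or_false, numP] at hp ⊢
    rcases hp with rfl | ⟨k, hk, (rfl | rfl) | hp⟩
    · simp only; omega
    · simp only; omega
    · simp only; omega
    · split_ifs at hp with h
      · simp only [List.mem_cons, List.not_mem_nil, or_false] at hp
        rcases hp with rfl | rfl <;> simp only <;> omega
      · simp at hp
  have hE : ∀ (N : ℤ) (V : ℕ → ℤ) o, o + 2 * m ≤ 2 + 4 * m → ∀ e ∈ chainE m M N V o,
      e.2.1 < numP m ∧ e.2.2 < numP m := by
    intro N V o ho e he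
    simp only [chainE, List.mem_flatMap, List.mem_range, List.mem_append, crs, dir, List.mem_cons,
      List.not_mem_nil, or_false, numP, xn] at he ⊢
    obtain ⟨k, hk, (rfl | rfl) | (rfl | rfl) | (rfl | rfl)⟩ := he <;> simp only <;>
      (try split_ifs) <;> omega
  constructor
  · intro p hp
    simp only [allO, List.mem_cons, List.mem_append] at hp
    rcases hp with rfl | rfl | hp | hp
    · simp only [numP]; omega
    · simp only [numP]; omega
    · exact hO 2 (by omega) p hp hm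
    · exact hO (2 + 2 * m) (by omega) p hp hm
  · intro e he
    simp only [allE, List.mem_cons, List.mem_append] at he
    rcases he with rfl | rfl | he | he
    · simp only [numP]; omega
    · simp only [numP]; omega
    · exact hE _ V1 2 (by omega) e he
    · exact hE _ V2 (2 + 2 * m) (by omega) e he

theorem energy_append (E E' : List (ℤ × ℕ × ℕ)) (x : ℕ → ℤ) :
    energy (E ++ E') x = energy E x + energy E' x := by
  simp [energy]

theorem energy_cons (e : ℤ × ℕ × ℕ) (E : List (ℤ × ℕ × ℕ)) (x : ℕ → ℤ) :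
    energy (e :: E) x = e.1 * (x e.2.1 - x e.2.2) ^ 2 + energy E x := by
  simp [energy]

theorem energy_nil (x : ℕ → ℤ) : energy [] x = 0 := rfl

theorem energy_flatMap (m : ℕ) (f : ℕ → List (ℤ × ℕ × ℕ)) (x : ℕ → ℤ) :
    energy ((List.range m).flatMap f) x = ∑ k ∈ range m, energy (f k) x := by
  induction m with
  | zero => simp [energy]
  | succ m ih =>
    rw [List.range_succ, List.flatMap_append, energy_append, ih, Finset.sum_range_succ]
    simp

/-- the signed value at a node -/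
def sg (x : ℕ → ℤ) (s : ℕ) : ℤ := x (2 * s) - x (2 * s + 1)

theorem dir_ge {g : ℤ} (hg : 0 ≤ g) (a b : ℕ) (x : ℕ → ℤ) :
    g * (sg x a - sg x b) ^ 2 ≤ energy (dir (2 * g) a b) x := by
  simp only [dir, energy_cons, energy_nil, sg]
  nlinarith [mul_nonneg hg (sq_nonneg ((x (2 * a) - x (2 * b)) + (x (2 * a + 1) - x (2 * b + 1))))]

theorem crs_ge {g : ℤ} (hg : 0 ≤ g) (a b : ℕ) (x : ℕ → ℤ) :
    g * (sg x a + sg x b) ^ 2 ≤ energy (crs (2 * g) a b) x := by
  simp only [crs, energy_cons, energy_nil, sg]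
  nlinarith [mul_nonneg hg (sq_nonneg ((x (2 * a) - x (2 * b + 1)) + (x (2 * a + 1) - x (2 * b))))]

theorem dir_eq (g : ℤ) (a b : ℕ) {y Z : ℕ → ℤ} (h0 : ∀ s, y (2 * s) = Z s)
    (h1 : ∀ s, y (2 * s + 1) = - Z s) : energy (dir (2 * g) a b) y = 4 * (g * (Z a - Z b) ^ 2) := by
  simp only [dir, energy_cons, energy_nil, h0, h1]
  ring

theorem crs_eq (g : ℤ) (a b : ℕ) {y Z : ℕ → ℤ} (h0 : ∀ s, y (2 * s) = Z s)
    (h1 : ∀ s, y (2 * s + 1) = - Z s) : energy (crs (2 * g) a b) y = 4 * (g * (Z a + Z b) ^ 2) := by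
  simp only [crs, energy_cons, energy_nil, h0, h1]
  ring

theorem xx_xn (m o : ℕ) (Z : ℕ → ℤ) (k : ℕ) :
    xx m (fun k => Z (o + 2 * k)) (Z 1) k = Z (xn m o k) := by
  unfold xx xn
  split_ifs <;> rfl

theorem bb_nonneg {m : ℕ} {V : ℕ → ℤ} (hV : ∀ k ≤ m, 0 ≤ V k) (k : ℕ) : 0 ≤ bb m V k := by
  unfold bb
  split_ifs with h
  · exact mul_nonneg (by norm_num) (hV _ (by omega))
  · exact hV _ le_rfl

theorem fw_nonneg (m k : ℕ) : (0 : ℤ) ≤ fw m k := by
  unfold fw
  split_ifs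
  · positivity
  · exact le_rfl

theorem chainE_ge {m : ℕ} {M N : ℤ} (hM : 0 ≤ M) (hN : 0 ≤ N) {V : ℕ → ℤ}
    (hV : ∀ k ≤ m, 0 ≤ V k) (o : ℕ) (x : ℕ → ℤ) :
    QC m M N V (fun k => sg x (o + 2 * k)) (fun k => sg x (o + 2 * k + 1)) (sg x 1) (sg x 0) ≤
      energy (chainE m M N V o) x := by
  unfold QC chainE
  rw [energy_flatMap]
  refine Finset.sum_le_sum fun k _ => ?_
  rw [xx_xn m o (sg x) k, energy_append, energy_append]
  have hb := bb_nonneg hV k
  have hf := fw_nonneg m k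
  have h1 := crs_ge (g := 2 * M * N ^ 2) (by positivity) (o + 2 * k + 1) (xn m o k) x
  have h2 := dir_ge (g := 2 * M * N * bb m V k) (by positivity) (o + 2 * k + 1) 0 x
  have h3 := dir_ge (g := 2 * M * N * bb m V k + N * fw m k) (by positivity) (xn m o k) 0 x
  have e1 : 2 * (2 * M * N ^ 2) = 4 * M * N ^ 2 := by ring
  have e2 : 2 * (2 * M * N * bb m V k) = 4 * M * N * bb m V k := by ring
  have e3 : 2 * (2 * M * N * bb m V k + N * fw m k) = 4 * M * N * bb m V k + 2 * N * fw m k := by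
    ring
  rw [e1] at h1
  rw [e2] at h2
  rw [e3] at h3
  linarith

theorem chainE_eq (m : ℕ) (M N : ℤ) (V : ℕ → ℤ) (o : ℕ) {y Z : ℕ → ℤ}
    (h0 : ∀ s, y (2 * s) = Z s) (h1 : ∀ s, y (2 * s + 1) = - Z s) :
    energy (chainE m M N V o) y = 4 *
      QC m M N V (fun k => Z (o + 2 * k)) (fun k => Z (o + 2 * k + 1)) (Z 1) (Z 0) := by
  unfold QC chainE
  rw [energy_flatMap, Finset.mul_sum]
  refine Finset.sum_congr rfl fun k _ => ?_
  rw [xx_xn m o Z k, energy_append, energy_append]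
  have e1 : 4 * M * N ^ 2 = 2 * (2 * M * N ^ 2) := by ring
  have e2 : 4 * M * N * bb m V k = 2 * (2 * M * N * bb m V k) := by ring
  have e3 : 4 * M * N * bb m V k + 2 * N * fw m k = 2 * (2 * M * N * bb m V k + N * fw m k) := by
    ring
  rw [e3, e1, e2, crs_eq _ _ _ h0 h1, dir_eq _ _ _ h0 h1, dir_eq _ _ _ h0 h1]
  ring

theorem allE_ge {m : ℕ} {B M N' : ℤ} (hB : 0 ≤ B) (hM : 0 ≤ M) (hN : 0 ≤ N') {V1 V2 : ℕ → ℤ}
    (hV1 : ∀ k ≤ m, 0 ≤ V1 k) (hV2 : ∀ k ≤ m, 0 ≤ V2 k) (x : ℕ → ℤ) :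
    Q2 m B M N' V1 V2 (fun k => sg x (2 + 2 * k)) (fun k => sg x (2 + 2 * k + 1))
      (fun k => sg x (2 + 2 * m + 2 * k)) (fun k => sg x (2 + 2 * m + 2 * k + 1))
      (sg x 1) (sg x 0) ≤ energy (allE m B M N' V1 V2) x := by
  unfold Q2 allE
  rw [energy_cons, energy_cons, energy_append]
  have h1 := chainE_ge hM (mul_nonneg hB hN) hV1 2 x
  have h2 := chainE_ge hM (mul_nonneg hB hN) hV2 (2 + 2 * m) x
  have e1 : x 2 - x 3 = sg x 1 := rfl
  have e2 : x 0 - x 1 = sg x 0 := rfl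
  simp only
  rw [e1, e2]
  linarith

theorem allE_eq (m : ℕ) (B M N' : ℤ) (V1 V2 : ℕ → ℤ) {y Z : ℕ → ℤ}
    (h0 : ∀ s, y (2 * s) = Z s) (h1 : ∀ s, y (2 * s + 1) = - Z s) :
    energy (allE m B M N' V1 V2) y = 4 *
      Q2 m B M N' V1 V2 (fun k => Z (2 + 2 * k)) (fun k => Z (2 + 2 * k + 1))
      (fun k => Z (2 + 2 * m + 2 * k)) (fun k => Z (2 + 2 * m + 2 * k + 1))
      (Z 1) (Z 0) := by
  unfold Q2 allE
  rw [energy_cons, energy_cons, energy_append, chainE_eq m M (B * N') V1 2 h0 h1,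
    chainE_eq m M (B * N') V2 (2 + 2 * m) h0 h1]
  have e1 : y 2 - y 3 = 2 * Z 1 := by
    have a := h0 1; have b := h1 1
    simp only [mul_one] at a b
    rw [a, show (3 : ℕ) = 2 + 1 from rfl, b]; ring
  have e2 : y 0 - y 1 = 2 * Z 0 := by
    have a := h0 0; have b := h1 0
    simp only [mul_zero, zero_add] at a b
    rw [a, b]; ring
  simp only
  rw [e1, e2]
  ring

/-- The order constraints of a chain, in terms of signed values. -/
theorem chainOK_of {m o : ℕ} {x : ℕ → ℤ} (h : ∀ p ∈ chainO m o, x p.1 ≤ x p.2)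
    (h1 : x 3 ≤ x 2) : ChainOK m (fun k => ((sg x (o + 2 * k) : ℤ) : ℝ))
      (fun k => ((sg x (o + 2 * k + 1) : ℤ) : ℝ)) ((sg x 1 : ℤ) : ℝ) := by
  have hord : ∀ a b : ℕ, (∀ p ∈ ord a b, x p.1 ≤ x p.2) → sg x a ≤ sg x b := by
    intro a b hab
    have a1 := hab (2 * a, 2 * b) (by simp [ord])
    have a2 := hab (2 * b + 1, 2 * a + 1) (by simp [ord])
    simp only at a1 a2
    unfold sg
    linarith
  constructor
  · have := h (2 * o + 1, 2 * o) (by simp [chainO])
    simp only at this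
    simp only [mul_zero, add_zero]
    have h2 : 0 ≤ sg x o := by unfold sg; linarith
    exact_mod_cast h2
  · intro k hk
    have h2 : sg x (o + 2 * k) ≤ sg x (o + 2 * k + 1) := by
      refine hord _ _ fun p hp => h p ?_
      simp only [chainO, List.mem_cons, List.mem_flatMap, List.mem_range, List.mem_append]
      exact Or.inr ⟨k, hk, Or.inl hp⟩
    exact_mod_cast h2
  · intro k hk
    have h2 : sg x (o + 2 * k) ≤ sg x (o + 2 * (k + 1)) := by
      refine hord _ _ fun p hp => h p ?_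
      simp only [chainO, List.mem_cons, List.mem_flatMap, List.mem_range, List.mem_append]
      exact Or.inr ⟨k, by omega, Or.inr (by rw [if_pos hk]; exact hp)⟩
    exact_mod_cast h2
  · have h2 : 0 ≤ sg x 1 := by
      unfold sg
      simp only [mul_one, show 2 + 1 = 3 from rfl]
      linarith
    exact_mod_cast h2

theorem chainO_of {m o : ℕ} {y Z : ℕ → ℤ} (h0 : ∀ s, y (2 * s) = Z s)
    (h1 : ∀ s, y (2 * s + 1) = - Z s) {z P : ℕ → ℝ} {T : ℝ} (hc : ChainOK m z P T) (hm : 1 ≤ m)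
    (hz : ∀ k < m, ((Z (o + 2 * k) : ℤ) : ℝ) = z k)
    (hP : ∀ k < m, ((Z (o + 2 * k + 1) : ℤ) : ℝ) = P k) :
    ∀ p ∈ chainO m o, y p.1 ≤ y p.2 := by
  have hord : ∀ a b : ℕ, Z a ≤ Z b → ∀ p ∈ ord a b, y p.1 ≤ y p.2 := by
    intro a b hab p hp
    simp only [ord, List.mem_cons, List.not_mem_nil, or_false] at hp
    rcases hp with rfl | rfl
    · simp only [h0]; exact hab
    · simp only [h1]; linarith
  intro p hp
  simp only [chainO, List.mem_cons, List.mem_flatMap, List.mem_range, List.mem_append] at hp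
  rcases hp with rfl | ⟨k, hk, hp | hp⟩
  · simp only [h0, h1]
    have h2 := hc.z0
    rw [← hz 0 (by omega)] at h2
    have h3 : 0 ≤ Z (o + 2 * 0) := by exact_mod_cast h2
    rw [mul_zero, add_zero] at h3
    linarith
  · refine hord _ _ ?_ p hp
    have h2 := hc.zP k hk
    rw [← hz k hk, ← hP k hk] at h2
    exact_mod_cast h2
  · split_ifs at hp with h
    · refine hord _ _ ?_ p hp
      have h2 := hc.zz k h
      rw [← hz k hk, ← hz (k + 1) h] at h2
      exact_mod_cast h2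
    · simp at hp

end Pool.Agent.H699.TU
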