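import Mathlib
import Pool.Graph.R_seed8.NPC.Defs
import Pool.Graph.R_seed8.NPC.Classes

/-!
# Separable indefinite quadratic integer programs with totally unimodular constraints
-/

namespace Pool.Agent.H699.TU

open Pool.Agent.NPC

/-- An instance: the list of rows of `W`, the right-hand side `w`, the list of (signed) quadratic
coefficients and the list `h` of linear coefficients.  The `j`-th quadratic coefficient is `q_j` for
a convex variable (`j ∈ C`), `-q_j` for a concave variable (`j ∈ V`), and `0` otherwise. -/
abbrev Inst : Type := List (List ℤ) × List ℤ × List ℤ × List ℤ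

/-- the rows of `W` -/
def rows (I : Inst) : List (List ℤ) := I.1

/-- the right-hand side `w` -/
def rhs (I : Inst) : List ℤ := I.2.1

/-- the signed quadratic coefficients -/
def quad (I : Inst) : List ℤ := I.2.2.1

/-- the linear coefficients `h` -/
def lin (I : Inst) : List ℤ := I.2.2.2

/-- number of constraints -/
def numC (I : Inst) : ℕ := (rows I).length

/-- number of variables -/
def numV (I : Inst) : ℕ := (quad I).length

/-- the constraint matrix -/
def W (I : Inst) : Matrix (Fin (numC I)) (Fin (numV I)) ℤ :=
  fun i j => ((rows I).getD i []).getD j 0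

/-- Well-formed instances with a totally unimodular constraint matrix. -/
def Valid (I : Inst) : Prop :=
  1 ≤ numV I ∧ 1 ≤ numC I ∧ (∀ r ∈ rows I, r.length = numV I) ∧ (rhs I).length = numC I ∧
    (lin I).length = numV I ∧ (W I).IsTotallyUnimodular

/-- the number of concave variables -/
def numConcave (I : Inst) : ℕ := ((quad I).filter (fun q => decide (q < 0))).length

/-- `W x ≤ w` -/
def Feasible (I : Inst) (x : Fin (numV I) → ℤ) : Prop :=
  ∀ i : Fin (numC I), ∑ j, W I i j * x j ≤ (rhs I).getD i 0

/-- the objective -/
def obj (I : Inst) (x : Fin (numV I) → ℤ) : ℤ :=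
  ∑ j : Fin (numV I), ((quad I).getD j 0 * x j ^ 2 + (lin I).getD j 0 * x j)

/-- The objective is unbounded below on the feasible set. -/
def UnboundedBelow (I : Inst) : Prop := ∀ b : ℤ, ∃ x, Feasible I x ∧ obj I x < b

/-- optimal solutions -/
def IsOptimal (I : Inst) (x : Fin (numV I) → ℤ) : Prop :=
  Feasible I x ∧ ∀ y, Feasible I y → obj I x ≤ obj I y

/-- `x` is an `ε`-approximate solution: it is feasible and, for every optimal solution `y`, if the
objective has the finite supremum `M` on the feasible set, then `f(y) = M` or
`(f(x) - f(y)) / (M - f(y)) ≤ ε` (if the supremum is infinite, every feasible point qualifies). -/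
def IsApprox (I : Inst) (ε : ℝ) (x : Fin (numV I) → ℤ) : Prop :=
  Feasible I x ∧ ∀ y, IsOptimal I y → ∀ M : ℝ,
    IsLUB {r : ℝ | ∃ z, Feasible I z ∧ (obj I z : ℝ) = r} M →
      (obj I y : ℝ) = M ∨ ((obj I x : ℝ) - obj I y) / (M - obj I y) ≤ ε

/-- Answers: `Sum.inl false` means that the instance is infeasible, `Sum.inl true` that it is unbounded below, and
`Sum.inr x` is the point `x`. -/
abbrev Answer : Type := Bool ⊕ List ℤ

/-- the bit strings coding the answers -/
def infeasible : List Bool := bits (Sum.inl false : Answer)

/-- the bit strings coding the answers -/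
def unbounded : List Bool := bits (Sum.inl true : Answer)

/-- the bit strings coding the answers -/
def point (I : Inst) (x : Fin (numV I) → ℤ) : List Bool := bits (Sum.inr (List.ofFn x) : Answer)

/-- The algorithm `A` answers the question for all instances with at most `p` concave variables. -/
def Solves (p : ℕ) (ε : ℝ) (A : List Bool → List Bool) : Prop :=
  ∀ I : Inst, Valid I → numConcave I ≤ p →
    ((¬ ∃ x, Feasible I x) → A (bits I) = infeasible) ∧
    ((∃ x, Feasible I x) → UnboundedBelow I → A (bits I) = unbounded) ∧
    ((∃ x, IsOptimal I x) → ∃ x, IsApprox I ε x ∧ A (bits I) = point I x)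

end Pool.Agent.H699.TU
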