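import Pool.Graph.R_seed8.H671R2.SubsetSum
import Pool.Agent.H699.TU.PolyT

/-!
# Hardness of detecting unboundedness
-/

namespace Pool.Agent.H699.TU

open Pool.Agent.NPC Finset

theorem obj_smul (I : Inst) (hl : ∀ j, (lin I).getD j 0 = 0) (t : ℤ) (x : Fin (numV I) → ℤ) :
    obj I (fun j => t * x j) = t ^ 2 * obj I x := by
  unfold obj
  rw [Finset.mul_sum]
  refine Finset.sum_congr rfl fun j _ => ?_
  rw [hl]
  ring

theorem feasible_smul (I : Inst) (hr : ∀ i, (rhs I).getD i 0 = 0) {t : ℤ} (ht : 0 ≤ t)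
    {x : Fin (numV I) → ℤ} (hx : Feasible I x) : Feasible I (fun j => t * x j) := by
  intro i
  have h := hx i
  rw [hr] at h ⊢
  have e : ∑ j, W I i j * (t * x j) = t * ∑ j, W I i j * x j := by
    rw [Finset.mul_sum]
    exact Finset.sum_congr rfl fun j _ => by ring
  rw [e]
  exact mul_nonpos_of_nonneg_of_nonpos ht h

theorem unbounded_of_neg (I : Inst) (hl : ∀ j, (lin I).getD j 0 = 0)
    (hr : ∀ i, (rhs I).getD i 0 = 0) {x : Fin (numV I) → ℤ} (hx : Feasible I x)
    (hn : obj I x < 0) : UnboundedBelow I := by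
  intro b
  refine ⟨fun j => (|b| + 1) * x j, feasible_smul I hr (by positivity) hx, ?_⟩
  rw [obj_smul I hl]
  have h1 : obj I x ≤ -1 := by omega
  have h2 := neg_abs_le b
  have h3 := abs_nonneg b
  nlinarith [sq_nonneg b]

theorem instOf_lin (a : List ℕ) : ∀ q ∈ lin (instOf a), q = 0 := by
  intro q hq
  simp only [instOf, lin, build, List.mem_map] at hq
  obtain ⟨_, _, rfl⟩ := hq
  rfl

theorem instOf_rhs (a : List ℕ) : ∀ q ∈ rhs (instOf a), q = 0 := by
  intro q hq
  simp only [instOf, rhs, build, List.mem_map] at hq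
  obtain ⟨_, _, rfl⟩ := hq
  rfl

theorem getD_zero_of {l : List ℤ} (h : ∀ q ∈ l, q = 0) (i : ℕ) : l.getD i 0 = 0 := by
  by_cases hi : i < l.length
  · rw [List.getD_eq_getElem _ _ hi]
    exact h _ (List.getElem_mem hi)
  · rw [List.getD_eq_default _ _ (by omega)]

theorem instOf_valid {a : List ℕ} (ha : a ≠ []) : Valid (instOf a) :=
  build_valid (inRange_all (List.length_pos_iff.2 ha) _ _ _ _ _) (by unfold numP; omega)
    (by simp [allO])

theorem instOf_concave (a : List ℕ) : numConcave (instOf a) ≤ 2 := by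
  rw [instOf, numConcave_build]
  have hN : 0 ≤ NN a := by
    have h2 := BB_pos a
    have h3 : 0 < BB a := by linarith
    unfold NN
    positivity
  have hB : 0 ≤ BB a := by have := BB_pos a; linarith
  have hch : ∀ (s : ℤ) (hs : s = 1 ∨ s = -1) (o : ℕ),
      (chainE a.length (4 ^ a.length) (BB a * NN a) (VV s a) o).filter
        (fun e => decide (e.1 < 0)) = [] := by
    intro s hs o
    rw [List.filter_eq_nil_iff]
    intro e he
    have hb := bb_nonneg (m := a.length) (fun k hk => VV_nonneg s hs a k hk)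
    have hf := fw_nonneg a.length
    simp only [chainE, List.mem_flatMap, List.mem_range, List.mem_append, crs, dir, List.mem_cons,
      List.not_mem_nil, or_false] at he
    obtain ⟨k, hk, h⟩ := he
    have hbk := hb k
    have hfk := hf k
    simp only [decide_eq_true_eq, not_lt]
    rcases h with (rfl | rfl) | (rfl | rfl) | (rfl | rfl) <;> positivity
  simp only [allE, List.filter_cons, List.filter_append, hch 1 (Or.inl rfl),
    hch (-1) (Or.inr rfl), List.append_nil]
  split_ifs <;> simp

/-- The instance is unbounded below exactly if some signed sum of the items vanishes. -/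
theorem instOf_spec {a : List ℕ} (ha : a ≠ []) :
    (UnboundedBelow (instOf a) ↔
      ∃ e : ℕ → ℤ, (∀ k, e k = 1 ∨ e k = -1) ∧ ∑ k ∈ range a.length, e k * aa a k = 0) ∧
    (¬ UnboundedBelow (instOf a) → IsOptimal (instOf a) (fun _ => 0)) := by
  have hR := inRange_all (List.length_pos_iff.2 ha) (BB a) (4 ^ a.length) (NN a) (VV 1 a) (VV (-1) a)
  have hl := fun j => getD_zero_of (instOf_lin a) j
  have hr := fun j => getD_zero_of (instOf_rhs a) j
  have back : (∃ e : ℕ → ℤ, (∀ k, e k = 1 ∨ e k = -1) ∧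
      ∑ k ∈ range a.length, e k * aa a k = 0) → UnboundedBelow (instOf a) := by
    rintro ⟨e, he, hs⟩
    obtain ⟨e', he', hs', hem⟩ : ∃ e' : ℕ → ℤ, (∀ k, e' k = 1 ∨ e' k = -1) ∧
        ∑ k ∈ range a.length, e' k * aa a k = 0 ∧ e' (a.length - 1) = 1 := by
      rcases he (a.length - 1) with h | h
      · exact ⟨e, he, hs, h⟩
      · refine ⟨fun k => - e k, fun k => ?_, ?_, by simp only [h]; norm_num⟩
        · rcases he k with h' | h' <;> simp [h']
        · have : ∀ k ∈ range a.length, -e k * aa a k = -(e k * aa a k) := fun k _ => by ring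
          rw [Finset.sum_congr rfl this, Finset.sum_neg_distrib, hs, neg_zero]
    obtain ⟨y, hy, hneg⟩ := exists_neg ha he' hs' hem
    have hobj : obj (instOf a) (pt _ _ _ y) = _ := obj_pt hR y hy
    exact unbounded_of_neg (instOf a) hl hr (pt_feasible hR y hy) (by rw [hobj]; exact hneg)
  have fwd : (¬ ∃ e : ℕ → ℤ, (∀ k, e k = 1 ∨ e k = -1) ∧
      ∑ k ∈ range a.length, e k * aa a k = 0) →
      ∀ x, Feasible (instOf a) x → 0 ≤ obj (instOf a) x := by
    intro hno x hx
    have hobj : obj (instOf a) x = _ := obj_build x hx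
    rw [hobj]
    refine energy_nonneg ha (fun e he h => hno ⟨e, he, h⟩) ?_
    exact ((feasible_build x).1 hx).1
  have iff1 : UnboundedBelow (instOf a) ↔
      ∃ e : ℕ → ℤ, (∀ k, e k = 1 ∨ e k = -1) ∧ ∑ k ∈ range a.length, e k * aa a k = 0 := by
    refine ⟨fun h => ?_, back⟩
    by_contra hno
    obtain ⟨x, hx, hlt⟩ := h 0
    exact absurd (fwd hno x hx) (not_le.2 hlt)
  refine ⟨iff1, fun h => ?_⟩
  have hno : ¬ ∃ e : ℕ → ℤ, (∀ k, e k = 1 ∨ e k = -1) ∧
      ∑ k ∈ range a.length, e k * aa a k = 0 := fun h' => h (iff1.2 h')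
  refine ⟨fun i => ?_, fun y hy => ?_⟩
  · rw [hr]; simp
  · have : obj (instOf a) (fun _ => 0) = 0 := by unfold obj; simp
    rw [this]
    exact fwd hno y hy

/-- the items of an instance of subset sum -/
def items (x : List ℕ × ℕ) : List ℕ := x.1 ++ [(x.1.sum - 2 * x.2) + (2 * x.2 - x.1.sum)]

theorem signs_iff (l : List ℕ) : ∀ c : ℤ, (∃ s : List ℕ, s.Sublist l ∧ ((s.sum : ℕ) : ℤ) = c) ↔
    ∃ e : ℕ → ℤ, (∀ k, e k = 1 ∨ e k = -1) ∧
      ∑ k ∈ range l.length, e k * aa l k = 2 * c - ((l.sum : ℕ) : ℤ) := by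
  induction l with
  | nil =>
    intro c
    constructor
    · rintro ⟨s, hs, hc⟩
      refine ⟨fun _ => 1, fun _ => Or.inl rfl, ?_⟩
      rw [List.sublist_nil.1 hs] at hc
      simp only [List.sum_nil, Nat.cast_zero] at hc
      subst hc
      simp
    · rintro ⟨e, _, h⟩
      refine ⟨[], List.Sublist.refl _, ?_⟩
      simp only [List.length_nil, range_zero, sum_empty, List.sum_nil, Nat.cast_zero] at h ⊢
      linarith
  | cons x l ih =>
    intro c
    have hsum : ∀ e : ℕ → ℤ, ∑ k ∈ range (x :: l).length, e k * aa (x :: l) k =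
        e 0 * x + ∑ k ∈ range l.length, e (k + 1) * aa l k := by
      intro e
      rw [List.length_cons, Finset.sum_range_succ', add_comm]
      congr 1
    have htot : (((x :: l).sum : ℕ) : ℤ) = x + ((l.sum : ℕ) : ℤ) := by
      rw [List.sum_cons, Nat.cast_add]
    constructor
    · rintro ⟨s, hs, hc⟩
      cases hs with
      | cons _ h =>
        obtain ⟨e, he, h1⟩ := (ih c).1 ⟨s, h, hc⟩
        refine ⟨fun k => if k = 0 then -1 else e (k - 1), fun k => ?_, ?_⟩
        · by_cases hk : k = 0
          · simp [hk]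
          · simp only [hk, if_false]; exact he _
        · rw [hsum, htot]
          simp only [if_true, Nat.add_eq_zero_iff, one_ne_zero, and_false, if_false,
            Nat.add_sub_cancel]
          rw [h1]; ring
      | cons_cons _ h =>
        rename_i s'
        obtain ⟨e, he, h1⟩ := (ih (c - x)).1 ⟨s', h, by
          rw [List.sum_cons, Nat.cast_add] at hc; linarith⟩
        refine ⟨fun k => if k = 0 then 1 else e (k - 1), fun k => ?_, ?_⟩
        · by_cases hk : k = 0
          · simp [hk]
          · simp only [hk, if_false]; exact he _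
        · rw [hsum, htot]
          simp only [if_true, Nat.add_eq_zero_iff, one_ne_zero, and_false, if_false,
            Nat.add_sub_cancel]
          rw [h1]; ring
    · rintro ⟨e, he, h⟩
      rw [hsum, htot] at h
      rcases he 0 with h0 | h0
      · obtain ⟨s, hs, hc⟩ := (ih (c - x)).2 ⟨fun k => e (k + 1), fun k => he _, by
          rw [h0] at h; linarith⟩
        exact ⟨x :: s, hs.cons_cons x, by rw [List.sum_cons, Nat.cast_add]; linarith⟩
      · obtain ⟨s, hs, hc⟩ := (ih c).2 ⟨fun k => e (k + 1), fun k => he _, by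
          rw [h0] at h; linarith⟩
        exact ⟨s, hs.cons x, hc⟩

theorem subsetSum_iff (x : List ℕ × ℕ) : R671.SS.SubsetSum x ↔
    ∃ e : ℕ → ℤ, (∀ k, e k = 1 ∨ e k = -1) ∧
      ∑ k ∈ range (items x).length, e k * aa (items x) k = 0 := by
  have h1 : R671.SS.SubsetSum x ↔ ∃ s : List ℕ, s.Sublist x.1 ∧ ((s.sum : ℕ) : ℤ) = (x.2 : ℤ) := by
    unfold R671.SS.SubsetSum
    constructor
    · rintro ⟨s, hs, h⟩; exact ⟨s, hs, by rw [h]⟩
    · rintro ⟨s, hs, h⟩; exact ⟨s, hs, by exact_mod_cast h⟩
  rw [h1, signs_iff]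
  have hlen : (items x).length = x.1.length + 1 := by simp [items]
  have hsum : ∀ e : ℕ → ℤ, ∑ k ∈ range (items x).length, e k * aa (items x) k =
      ∑ k ∈ range x.1.length, e k * aa x.1 k + e x.1.length *
        (((x.1.sum - 2 * x.2) + (2 * x.2 - x.1.sum) : ℕ) : ℤ) := by
    intro e
    rw [hlen, Finset.sum_range_succ]
    congr 1
    · refine Finset.sum_congr rfl fun k hk => ?_
      have hk := Finset.mem_range.1 hk
      unfold aa items
      rw [List.getD_append _ _ _ _ hk]
    · unfold aa items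
      rw [List.getD_append_right _ _ _ _ le_rfl]
      simp
  have hd : ((((x.1.sum - 2 * x.2) + (2 * x.2 - x.1.sum) : ℕ) : ℤ) = 2 * x.2 - x.1.sum) ∨
      ((((x.1.sum - 2 * x.2) + (2 * x.2 - x.1.sum) : ℕ) : ℤ) = -(2 * x.2 - x.1.sum)) := by
    omega
  constructor
  · rintro ⟨e, he, h⟩
    rcases hd with hd | hd
    · refine ⟨fun k => if k = x.1.length then -1 else e k, fun k => ?_, ?_⟩
      · by_cases hk : k = x.1.length
        · simp [hk]
        · simp only [hk, if_false]; exact he _
      · rw [hsum, hd]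
        rw [Finset.sum_congr rfl (g := fun k => e k * aa x.1 k)]
        · rw [h]; simp
        · intro k hk
          have hk := Finset.mem_range.1 hk
          rw [if_neg (by omega)]
    · refine ⟨fun k => if k = x.1.length then 1 else e k, fun k => ?_, ?_⟩
      · by_cases hk : k = x.1.length
        · simp [hk]
        · simp only [hk, if_false]; exact he _
      · rw [hsum, hd]
        rw [Finset.sum_congr rfl (g := fun k => e k * aa x.1 k)]
        · rw [h]; simp
        · intro k hk
          have hk := Finset.mem_range.1 hk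
          rw [if_neg (by omega)]
  · rintro ⟨e, he, h⟩
    rw [hsum] at h
    have hcase : ∑ k ∈ range x.1.length, e k * aa x.1 k = 2 * x.2 - x.1.sum ∨
        ∑ k ∈ range x.1.length, e k * aa x.1 k = -(2 * x.2 - x.1.sum) := by
      rcases hd with hd | hd <;> rcases he x.1.length with h0 | h0 <;> rw [hd, h0] at h
      · right; linarith
      · left; linarith
      · left; linarith
      · right; linarith
    rcases hcase with h2 | h2
    · exact ⟨e, he, h2⟩
    · refine ⟨fun k => - e k, fun k => ?_, ?_⟩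
      · rcases he k with h' | h' <;> simp [h']
      · have : ∀ k ∈ range x.1.length, -e k * aa x.1 k = -(e k * aa x.1 k) := fun k _ => by ring
        rw [Finset.sum_congr rfl this, Finset.sum_neg_distrib, h2, neg_neg]

theorem poly_items : NPC.Poly items := by
  unfold items
  fun_prop

/-- Deciding unboundedness below is `NP`-hard. -/
theorem hardPr_unbounded : HardPr
    (fun I : Inst => Valid I ∧ numConcave I ≤ 2 ∧ (∀ q ∈ lin I, q = 0) ∧ (∀ q ∈ rhs I, q = 0) ∧
      (¬ UnboundedBelow I → IsOptimal I (fun _ => 0)))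
    UnboundedBelow := by
  have hne : ∀ x, items x ≠ [] := fun x => by simp [items]
  refine (HardPr.trans R671.SS.hardPr_SubsetSum (f := fun x => instOf (items x))
    (poly_instOf.comp poly_items) (fun x _ => ?_) (fun x _ => ?_))
  · exact ⟨instOf_valid (hne x), instOf_concave _, instOf_lin _, instOf_rhs _,
      (instOf_spec (hne x)).2⟩
  · rw [subsetSum_iff, ← (instOf_spec (hne x)).1]

end Pool.Agent.H699.TU
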