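import Pool.Agent.H699.TU.Phi

/-!
# The signed form and its homogenisation
-/

namespace Pool.Agent.H699.TU

open Finset

/-- The forces. -/
def fw {R : Type} [CommRing R] (m k : ℕ) : R := if k + 1 < m then 2 ^ k else 0

/-- The signed form of a chain. -/
def QC {R : Type} [CommRing R] (m : ℕ) (M N : R) (V : ℕ → R) (z P : ℕ → R) (T Y : R) : R :=
  ∑ k ∈ range m, (2 * M * N ^ 2 * (P k + xx m z T k) ^ 2 + 2 * M * N * bb m V k * (P k - Y) ^ 2 +
    (2 * M * N * bb m V k + N * fw m k) * (xx m z T k - Y) ^ 2)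

/-- The coefficient of `Y ^ 2` contributed by a chain. -/
def cY {R : Type} [CommRing R] (m : ℕ) (M N : R) (V : ℕ → R) : R :=
  ∑ k ∈ range m, (4 * M * N * bb m V k - 2 * M * bb m V k ^ 2 + N * fw m k)

/-- The error terms of a chain. -/
def err (m' : ℕ) (M N : ℝ) (V : ℕ → ℝ) (z P : ℕ → ℝ) : ℝ :=
  ∑ k ∈ range (m' + 1), 2 * M * N * bb (m' + 1) V k * P k ^ 2 +
    ∑ k ∈ range m', (2 * M * N * bb (m' + 1) V k + N * 2 ^ k) * z (k + 1) ^ 2

theorem sum_fw (m' : ℕ) (z : ℕ → ℝ) (T : ℝ) :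
    ∑ k ∈ range (m' + 1), fw (m' + 1) k * xx (m' + 1) z T k = ∑ k ∈ range m', 2 ^ k * z (k + 1) := by
  rw [Finset.sum_range_succ]
  have h1 : (fw (m' + 1) m' : ℝ) = 0 := by simp [fw]
  rw [h1, zero_mul, add_zero]
  refine Finset.sum_congr rfl fun k hk => ?_
  have hk := Finset.mem_range.1 hk
  simp only [fw, xx]
  rw [if_pos (by omega), if_pos (by omega)]

theorem QC_hom (m' : ℕ) (M N : ℝ) (V z P z' P' : ℕ → ℝ) (T Y T' : ℝ)
    (hz : ∀ k, Y * z' k = N * z k) (hP : ∀ k, Y * P' k = N * P k) (hT : Y * T' = N * T) :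
    QC (m' + 1) M N V z P T Y =
      Y ^ 2 * (∑ k ∈ range (m' + 1),
        2 * M * (P' k + xx (m' + 1) z' T' k - bb (m' + 1) V k) ^ 2 -
          2 * ∑ k ∈ range m', 2 ^ k * z' (k + 1)) + err m' M N V z P +
      2 * M * N * V (m' + 1) * T ^ 2 + cY (m' + 1) M N V * Y ^ 2 := by
  rw [← sum_fw m' z' T']
  have hx : ∀ k, Y * xx (m' + 1) z' T' k = N * xx (m' + 1) z T k := by
    intro k
    simp only [xx]
    split_ifs
    · exact hz _
    · exact hT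
  have h1 : ∀ k, 2 * M * N ^ 2 * (P k + xx (m' + 1) z T k) ^ 2 +
      2 * M * N * bb (m' + 1) V k * (P k - Y) ^ 2 +
      (2 * M * N * bb (m' + 1) V k + N * fw (m' + 1) k) * (xx (m' + 1) z T k - Y) ^ 2 =
      Y ^ 2 * (2 * M * (P' k + xx (m' + 1) z' T' k - bb (m' + 1) V k) ^ 2) -
      Y ^ 2 * 2 * (fw (m' + 1) k * xx (m' + 1) z' T' k) +
      (2 * M * N * bb (m' + 1) V k * P k ^ 2 +
        (2 * M * N * bb (m' + 1) V k + N * fw (m' + 1) k) * xx (m' + 1) z T k ^ 2) +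
      (4 * M * N * bb (m' + 1) V k - 2 * M * bb (m' + 1) V k ^ 2 + N * fw (m' + 1) k) * Y ^ 2 := by
    intro k
    have e1 := hx k
    have e2 := hP k
    set X := xx (m' + 1) z T k
    set X' := xx (m' + 1) z' T' k
    set b := bb (m' + 1) V k
    set f : ℝ := fw (m' + 1) k
    have e3 : N * (P k + X) = Y * (P' k + X') := by rw [mul_add, mul_add, e1, e2]
    have e4 : 2 * M * N ^ 2 * (P k + X) ^ 2 = 2 * M * (N * (P k + X)) ^ 2 := by ring
    have e5 : Y ^ 2 * (2 * M * (P' k + X' - b) ^ 2) = 2 * M * (Y * (P' k + X') - b * Y) ^ 2 := by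
      ring
    have e6 : Y ^ 2 * 2 * (f * X') = 2 * Y * f * (Y * X') := by ring
    rw [e4, e5, e6, ← e3, e1]
    ring
  unfold QC cY
  rw [Finset.sum_congr rfl fun k _ => h1 k, Finset.sum_add_distrib, Finset.sum_add_distrib,
    Finset.sum_sub_distrib]
  have g1 : ∑ k ∈ range (m' + 1),
      Y ^ 2 * (2 * M * (P' k + xx (m' + 1) z' T' k - bb (m' + 1) V k) ^ 2) =
      Y ^ 2 * ∑ k ∈ range (m' + 1),
        2 * M * (P' k + xx (m' + 1) z' T' k - bb (m' + 1) V k) ^ 2 := (Finset.mul_sum ..).symm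
  have g2 : ∑ k ∈ range (m' + 1), Y ^ 2 * 2 * (fw (m' + 1) k * xx (m' + 1) z' T' k) =
      Y ^ 2 * 2 * ∑ k ∈ range (m' + 1), (fw (m' + 1) k * xx (m' + 1) z' T' k) :=
    (Finset.mul_sum ..).symm
  have g3 : ∑ k ∈ range (m' + 1),
      (4 * M * N * bb (m' + 1) V k - 2 * M * bb (m' + 1) V k ^ 2 + N * fw (m' + 1) k) * Y ^ 2 =
      (∑ k ∈ range (m' + 1),
      (4 * M * N * bb (m' + 1) V k - 2 * M * bb (m' + 1) V k ^ 2 + N * fw (m' + 1) k)) * Y ^ 2 :=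
    (Finset.sum_mul ..).symm
  rw [g1, g2, g3]
  have h2 : ∑ k ∈ range (m' + 1), (2 * M * N * bb (m' + 1) V k * P k ^ 2 +
        (2 * M * N * bb (m' + 1) V k + N * fw (m' + 1) k) * xx (m' + 1) z T k ^ 2) =
      err m' M N V z P + 2 * M * N * V (m' + 1) * T ^ 2 := by
    rw [Finset.sum_add_distrib, err, Finset.sum_range_succ (fun k =>
      (2 * M * N * bb (m' + 1) V k + N * fw (m' + 1) k) * xx (m' + 1) z T k ^ 2)]
    have h3 : ∑ k ∈ range m', (2 * M * N * bb (m' + 1) V k + N * fw (m' + 1) k) *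
        xx (m' + 1) z T k ^ 2 =
        ∑ k ∈ range m', (2 * M * N * bb (m' + 1) V k + N * 2 ^ k) * z (k + 1) ^ 2 := by
      refine Finset.sum_congr rfl fun k hk => ?_
      have hk := Finset.mem_range.1 hk
      simp only [fw, xx]
      rw [if_pos (by omega), if_pos (by omega)]
    rw [h3]
    have h4 : (fw (m' + 1) m' : ℝ) = 0 := by simp [fw]
    have h5 : bb (m' + 1) V m' = V (m' + 1) := by simp [bb]
    have h6 : xx (m' + 1) z T m' = T := by simp [xx]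
    rw [h4, h5, h6]
    ring
  rw [h2]
  ring

/-- The signed form of the instance. -/
def Q2 {R : Type} [CommRing R] (m : ℕ) (B M N' : R) (V1 V2 z1 P1 z2 P2 : ℕ → R) (T Y : R) : R :=
  QC m M (B * N') V1 z1 P1 T Y + QC m M (B * N') V2 z2 P2 T Y -
    (B * N' ^ 2 + 2 * M * (B * N') * (V1 m + V2 m)) * T ^ 2 -
    (cY m M (B * N') V1 + cY m M (B * N') V2 - (B * (2 ^ m - 1) ^ 2 - 1)) * Y ^ 2

/-- The scaled form. -/
noncomputable def Phi (m' : ℕ) (B M : ℝ) (V1 V2 z1 P1 z2 P2 : ℕ → ℝ) (T : ℝ) : ℝ :=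
  (∑ k ∈ range (m' + 1),
      2 * M * (P1 k + xx (m' + 1) z1 T k - bb (m' + 1) V1 k) ^ 2 -
        2 * ∑ k ∈ range m', 2 ^ k * z1 (k + 1)) +
    (∑ k ∈ range (m' + 1),
      2 * M * (P2 k + xx (m' + 1) z2 T k - bb (m' + 1) V2 k) ^ 2 -
        2 * ∑ k ∈ range m', 2 ^ k * z2 (k + 1)) -
    T ^ 2 / B + B * (2 ^ (m' + 1) - 1) ^ 2 - 1

theorem Q2_hom (m' : ℕ) (B M N' : ℝ) (hB : B ≠ 0) (V1 V2 z1 P1 z2 P2 z1' P1' z2' P2' : ℕ → ℝ)
    (T Y T' : ℝ)
    (hz1 : ∀ k, Y * z1' k = (B * N') * z1 k) (hP1 : ∀ k, Y * P1' k = (B * N') * P1 k)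
    (hz2 : ∀ k, Y * z2' k = (B * N') * z2 k) (hP2 : ∀ k, Y * P2' k = (B * N') * P2 k)
    (hT : Y * T' = (B * N') * T) :
    Q2 (m' + 1) B M N' V1 V2 z1 P1 z2 P2 T Y = Y ^ 2 * Phi m' B M V1 V2 z1' P1' z2' P2' T' +
      err m' M (B * N') V1 z1 P1 + err m' M (B * N') V2 z2 P2 := by
  unfold Q2 Phi
  rw [QC_hom m' M (B * N') V1 z1 P1 z1' P1' T Y T' hz1 hP1 hT,
    QC_hom m' M (B * N') V2 z2 P2 z2' P2' T Y T' hz2 hP2 hT]
  have e : Y ^ 2 * (T' ^ 2 / B) = B * N' ^ 2 * T ^ 2 := by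
    have : Y ^ 2 * (T' ^ 2 / B) = (Y * T') ^ 2 / B := by ring
    rw [this, hT]
    field_simp
  linear_combination e

theorem err_nonneg (m' : ℕ) {M N : ℝ} {V : ℕ → ℝ} (hM : 0 ≤ M) (hN : 0 ≤ N)
    (hV : ∀ k ≤ m' + 1, 0 ≤ V k) (z P : ℕ → ℝ) : 0 ≤ err m' M N V z P := by
  have hb : ∀ k < m' + 1, 0 ≤ bb (m' + 1) V k := by
    intro k hk
    unfold bb
    split_ifs
    · exact mul_nonneg (by norm_num) (hV _ (by omega))
    · exact hV _ le_rfl
  refine add_nonneg (Finset.sum_nonneg fun k hk => ?_) (Finset.sum_nonneg fun k hk => ?_)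
  · have := hb k (Finset.mem_range.1 hk)
    positivity
  · have := hb k (by have := Finset.mem_range.1 hk; omega)
    positivity

theorem ChainOK.scale {m : ℕ} {z P : ℕ → ℝ} {T : ℝ} (h : ChainOK m z P T) {s : ℝ} (hs : 0 ≤ s) :
    ChainOK m (fun k => s * z k) (fun k => s * P k) (s * T) where
  z0 := mul_nonneg hs h.z0
  zP k hk := mul_le_mul_of_nonneg_left (h.zP k hk) hs
  zz k hk := mul_le_mul_of_nonneg_left (h.zz k hk) hs
  T0 := mul_nonneg hs h.T0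

theorem ParamOK.nonneg {m : ℕ} {V : ℕ → ℝ} (h : ParamOK m V) (k : ℕ) (hk : k ≤ m) : 0 ≤ V k := by
  induction k with
  | zero => exact h.V0.ge
  | succ k ih => exact (ih (by omega)).trans (h.mono k (by omega))

theorem QC_zero_ge (m' : ℕ) {M N : ℝ} {V z P : ℕ → ℝ} {T : ℝ} (hM : 0 ≤ M) (hN : 0 ≤ N)
    (hV : ParamOK (m' + 1) V) (h : ChainOK (m' + 1) z P T) :
    2 * M * N ^ 2 * T ^ 2 + 2 * M * N * V (m' + 1) * T ^ 2 ≤ QC (m' + 1) M N V z P T 0 := by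
  have hb : ∀ k < m' + 1, 0 ≤ bb (m' + 1) V k := by
    intro k hk
    unfold bb
    split_ifs
    · exact mul_nonneg (by norm_num) (hV.nonneg _ (by omega))
    · exact hV.nonneg _ le_rfl
  have hf : ∀ k, (0 : ℝ) ≤ fw (m' + 1) k := by
    intro k
    unfold fw
    split_ifs
    · positivity
    · exact le_rfl
  unfold QC
  rw [Finset.sum_range_succ]
  have h1 : 0 ≤ ∑ k ∈ range m', (2 * M * N ^ 2 * (P k + xx (m' + 1) z T k) ^ 2 +
      2 * M * N * bb (m' + 1) V k * (P k - 0) ^ 2 +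
      (2 * M * N * bb (m' + 1) V k + N * fw (m' + 1) k) * (xx (m' + 1) z T k - 0) ^ 2) := by
    refine Finset.sum_nonneg fun k hk => ?_
    have := hb k (by have := Finset.mem_range.1 hk; omega)
    have := hf k
    positivity
  have h2 := hb m' (by omega)
  have h4 : (fw (m' + 1) m' : ℝ) = 0 := by simp [fw]
  have h5 : bb (m' + 1) V m' = V (m' + 1) := by simp [bb]
  have h6 : xx (m' + 1) z T m' = T := by simp [xx]
  rw [h5] at h2
  rw [h4, h5, h6]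
  have h7 : 0 ≤ P m' := (h.nonneg m' (by omega)).trans (h.zP m' (by omega))
  have h8 := h.T0
  have h9 : T ^ 2 ≤ (P m' + T) ^ 2 := by nlinarith
  have h10 : 2 * M * N ^ 2 * T ^ 2 ≤ 2 * M * N ^ 2 * (P m' + T) ^ 2 :=
    mul_le_mul_of_nonneg_left h9 (by positivity)
  have h11 : 0 ≤ 2 * M * N * V (m' + 1) * (P m' - 0) ^ 2 := by positivity
  have h12 : (2 * M * N * V (m' + 1) + N * 0) * (T - 0) ^ 2 = 2 * M * N * V (m' + 1) * T ^ 2 := by
    ring
  rw [h12]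
  linarith

/-- The signed form is nonnegative on the cone if there is no vanishing signed sum. -/
theorem Q2_nonneg {m' : ℕ} {B A : ℝ} (hA : 0 ≤ A) (hB : A + 4 ≤ B) {a V1 V2 : ℕ → ℝ}
    (hV1 : ParamOK (m' + 1) V1) (hV2 : ParamOK (m' + 1) V2)
    (h1 : ∀ k < m' + 1, V1 (k + 1) - V1 k = B * 2 ^ k - a k)
    (h2 : ∀ k < m' + 1, V2 (k + 1) - V2 k = B * 2 ^ k + a k)
    (hs : V1 (m' + 1) + V2 (m' + 1) = 2 * B * (2 ^ (m' + 1) - 1))
    (hu1 : V1 (m' + 1) ≤ B * (2 ^ (m' + 1) - 1) + A)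
    (hu2 : V2 (m' + 1) ≤ B * (2 ^ (m' + 1) - 1) + A)
    (hfar : Far a (m' + 1) 0) {N' : ℝ} (hN : 0 < N') {z1 P1 z2 P2 : ℕ → ℝ} {T Y : ℝ}
    (c1 : ChainOK (m' + 1) z1 P1 T) (c2 : ChainOK (m' + 1) z2 P2 T) (hY : 0 ≤ Y) :
    0 ≤ Q2 (m' + 1) B (4 ^ (m' + 1)) N' V1 V2 z1 P1 z2 P2 T Y := by
  have hB0 : 0 < B := by linarith
  rcases hY.eq_or_lt with hY | hY
  · subst hY
    have g1 := QC_zero_ge m' (M := 4 ^ (m' + 1)) (N := B * N') (by positivity) (by positivity)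
      hV1 c1
    have g2 := QC_zero_ge m' (M := 4 ^ (m' + 1)) (N := B * N') (by positivity) (by positivity)
      hV2 c2
    unfold Q2
    have h3 : B * N' ^ 2 * T ^ 2 ≤ 4 * 4 ^ (m' + 1) * (B * N') ^ 2 * T ^ 2 := by
      refine mul_le_mul_of_nonneg_right ?_ (sq_nonneg _)
      have h4 : (1 : ℝ) ≤ 4 ^ (m' + 1) := one_le_pow₀ (by norm_num)
      have h5 : B * N' ^ 2 ≤ (B * N') ^ 2 := by
        have : 0 ≤ N' ^ 2 := sq_nonneg _
        nlinarith [mul_nonneg (show 0 ≤ B by linarith) this]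
      have h6 : 0 ≤ (B * N') ^ 2 := sq_nonneg _
      nlinarith
    linarith
  · set s : ℝ := (B * N') / Y with hs'
    have hsp : 0 ≤ s := by positivity
    have hYs : ∀ x : ℝ, Y * (s * x) = (B * N') * x := by
      intro x; rw [hs']; field_simp
    rw [Q2_hom m' B _ N' hB0.ne' V1 V2 z1 P1 z2 P2 (fun k => s * z1 k) (fun k => s * P1 k)
      (fun k => s * z2 k) (fun k => s * P2 k) T Y (s * T) (fun k => hYs _) (fun k => hYs _)
      (fun k => hYs _) (fun k => hYs _) (hYs _)]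
    have p1 := phi_nonneg hA hB hV1 hV2 h1 h2 hs hu1 hu2 hfar (c1.scale hsp) (c2.scale hsp)
    have p2 := err_nonneg m' (M := 4 ^ (m' + 1)) (N := B * N') (by positivity) (by positivity)
      (fun k hk => hV1.nonneg k hk) z1 P1
    have p3 := err_nonneg m' (M := 4 ^ (m' + 1)) (N := B * N') (by positivity) (by positivity)
      (fun k hk => hV2.nonneg k hk) z2 P2
    have p4 : 0 ≤ Phi m' B (4 ^ (m' + 1)) V1 V2 (fun k => s * z1 k) (fun k => s * P1 k)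
      (fun k => s * z2 k) (fun k => s * P2 k) (s * T) := p1
    have p5 := mul_nonneg (sq_nonneg Y) p4
    linarith

end Pool.Agent.H699.TU
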