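import Pool.Agent.H699.TU.Chain

/-!
# The lower bound for the two chains
-/

namespace Pool.Agent.H699.TU

open Finset

/-- The right-hand sides of the pins. -/
def bb {R : Type} [CommRing R] (m : ℕ) (V : ℕ → R) (k : ℕ) : R :=
  if k + 1 < m then 2 * V (k + 1) else V m

/-- The partner of `P k` in the `k`-th pin. -/
def xx {R : Type} (m : ℕ) (z : ℕ → R) (T : R) (k : ℕ) : R := if k + 1 < m then z (k + 1) else T

/-- The constraints of a chain. -/
structure ChainOK (m : ℕ) (z P : ℕ → ℝ) (T : ℝ) : Prop where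
  z0 : 0 ≤ z 0
  zP : ∀ k < m, z k ≤ P k
  zz : ∀ k, k + 1 < m → z k ≤ z (k + 1)
  T0 : 0 ≤ T

theorem ChainOK.nonneg {m : ℕ} {z P : ℕ → ℝ} {T : ℝ} (h : ChainOK m z P T) (k : ℕ) (hk : k < m) :
    0 ≤ z k := by
  induction k with
  | zero => exact h.z0
  | succ k ih => exact (ih (by omega)).trans (h.zz k hk)

/-- The parameters of a chain. -/
structure ParamOK (m : ℕ) (V : ℕ → ℝ) : Prop where
  V0 : V 0 = 0
  mono : ∀ k < m, V k ≤ V (k + 1)
  dbl : ∀ k < m, V k ≤ V (k + 1) - V k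

theorem chain_lb {m' : ℕ} {V : ℕ → ℝ} (hV : ParamOK (m' + 1) V) {z P : ℕ → ℝ} {T : ℝ}
    (h : ChainOK (m' + 1) z P T) (M : ℝ) :
    2 * (S V (m' + 1) T - 2 ^ m' * (T + V (m' + 1))) +
      ∑ k ∈ range (m' + 1), (2 * M * (P k + xx (m' + 1) z T k - bb (m' + 1) V k) ^ 2 -
        2 * 2 ^ k * |P k + xx (m' + 1) z T k - bb (m' + 1) V k|) ≤
    ∑ k ∈ range (m' + 1), 2 * M * (P k + xx (m' + 1) z T k - bb (m' + 1) V k) ^ 2 -
      2 * ∑ k ∈ range m', 2 ^ k * z (k + 1) := by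
  set z' : ℕ → ℝ := fun k => if k < m' + 1 then z k else T + V (m' + 1) with hz'
  set r : ℕ → ℝ := fun k => P k + xx (m' + 1) z T k - bb (m' + 1) V k with hr
  have hz1 : ∀ k, k < m' + 1 → z' k = z k := fun k hk => by rw [hz']; exact if_pos hk
  have hz2 : z' (m' + 1) = T + V (m' + 1) := by simp [hz']
  have hrk : ∀ k < m' + 1, r k = P k + z' (k + 1) - 2 * V (k + 1) := by
    intro k hk
    simp only [hr, xx, bb]
    by_cases hk1 : k + 1 < m' + 1
    · rw [if_pos hk1, if_pos hk1, hz1 _ hk1]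
    · have : k = m' := by omega
      subst this
      rw [if_neg hk1, if_neg hk1, hz2]
      ring
  have key := chain_ge V (m' + 1) hV.V0 hV.mono hV.dbl z' r (by
      rw [hz1 _ (by omega)]; exact h.z0)
    (by
      intro k hk
      rw [hz1 k hk]
      by_cases hk1 : k + 1 < m' + 1
      · rw [hz1 _ hk1]
        have := h.zz k hk1
        have := abs_nonneg (r k)
        linarith
      · have hkm : k = m' := by omega
        subst hkm
        rw [hz2]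
        have h1 := h.zP k hk
        have h2 := hrk k hk
        rw [hz2] at h2
        have h3 := le_abs_self (r k)
        have h4 := h.T0
        linarith)
    (by
      intro k hk
      rw [hz1 k hk]
      have h1 := h.zP k hk
      have h2 := hrk k hk
      linarith) (m' + 1) le_rfl
  have h4 := tele z' m'
  rw [hz1 0 (by omega)] at h4 key
  rw [hz2] at h4 key
  rw [h4] at key
  have e : T + V (m' + 1) - V (m' + 1) = T := by ring
  rw [e] at key
  have h5 : ∑ k ∈ range m', 2 ^ k * z' (k + 1) = ∑ k ∈ range m', 2 ^ k * z (k + 1) := by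
    refine Finset.sum_congr rfl fun k hk => ?_
    rw [hz1 _ (by have := Finset.mem_range.1 hk; omega)]
  rw [h5] at key
  rw [Finset.sum_sub_distrib]
  have h6 : ∑ k ∈ range (m' + 1), 2 * 2 ^ k * |r k| = 2 * ∑ k ∈ range (m' + 1), 2 ^ k * |r k| := by
    rw [Finset.mul_sum]
    exact Finset.sum_congr rfl fun k _ => by ring
  simp only [hr] at key h6
  linarith

theorem pen_ge (M : ℝ) (hM : 0 < M) (k : ℕ) (x : ℝ) :
    -(4 ^ k / (2 * M)) ≤ 2 * M * x ^ 2 - 2 * 2 ^ k * |x| := by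
  have h1 : (4 : ℝ) ^ k = (2 ^ k) ^ 2 := by
    rw [← pow_mul, mul_comm, pow_mul]; norm_num
  rw [h1, ← sq_abs x, neg_le, neg_sub, le_div_iff₀ (by positivity)]
  nlinarith [sq_nonneg (2 * M * |x| - 2 ^ k)]

theorem geom4 (m : ℕ) : ∑ k ∈ range m, (4 : ℝ) ^ k = (4 ^ m - 1) / 3 := by
  rw [geom_sum_eq (by norm_num)]
  norm_num

theorem pens_ge (m : ℕ) (s : ℕ) (hs : s ≤ m) (x : ℕ → ℝ) :
    -(1 / 6) ≤ ∑ k ∈ range s, (2 * (4 : ℝ) ^ m * (x k) ^ 2 - 2 * 2 ^ k * |x k|) := by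
  have h1 : ∑ k ∈ range s, -((4 : ℝ) ^ k / (2 * 4 ^ m)) ≤
      ∑ k ∈ range s, (2 * (4 : ℝ) ^ m * (x k) ^ 2 - 2 * 2 ^ k * |x k|) :=
    Finset.sum_le_sum fun k _ => pen_ge _ (by positivity) k (x k)
  refine le_trans ?_ h1
  rw [Finset.sum_neg_distrib, ← Finset.sum_div, geom4]
  have h2 : (4 : ℝ) ^ s ≤ 4 ^ m := pow_le_pow_right₀ (by norm_num) hs
  have h3 : (0 : ℝ) < 4 ^ m := by positivity
  rw [neg_le_neg_iff, div_div, div_le_div_iff₀ (by positivity) (by norm_num)]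
  nlinarith

theorem pen_top {q D r : ℝ} (hq : 1 ≤ q) (hD : 4 ≤ D) (hr : D / 2 ≤ r) :
    D ^ 2 ≤ 2 * (4 * q ^ 2) * r ^ 2 - 2 * q * |r| := by
  have hr1 : 1 ≤ r := by linarith
  rw [abs_of_nonneg (by linarith)]
  have h1 : 1 ≤ q * r := by nlinarith
  have h2 : r ≤ q * r := by nlinarith
  have h3 : r ^ 2 ≤ (q * r) ^ 2 := by nlinarith
  have h4 : q * r ≤ (q * r) ^ 2 := by nlinarith
  have h5 : D ^ 2 ≤ 4 * r ^ 2 := by nlinarith
  have e : 2 * (4 * q ^ 2) * r ^ 2 = 8 * (q * r) ^ 2 := by ring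
  rw [e, mul_assoc 2 q r]
  linarith

theorem case1_aux {B T q : ℝ} (hB : 0 < B) :
    ((T + B * (2 * q)) ^ 2 - B ^ 2) / (2 * B) = (T ^ 2 / B) / 2 +
      T * (2 * q) + 2 * B * q ^ 2 - B / 2 := by
  field_simp; ring

/-- The form is nonnegative if there is no vanishing signed sum. -/
theorem phi_nonneg {m' : ℕ} {B A : ℝ} (hA : 0 ≤ A) (hB : A + 4 ≤ B) {a V1 V2 : ℕ → ℝ}
    (hV1 : ParamOK (m' + 1) V1) (hV2 : ParamOK (m' + 1) V2)
    (h1 : ∀ k < m' + 1, V1 (k + 1) - V1 k = B * 2 ^ k - a k)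
    (h2 : ∀ k < m' + 1, V2 (k + 1) - V2 k = B * 2 ^ k + a k)
    (hs : V1 (m' + 1) + V2 (m' + 1) = 2 * B * (2 ^ (m' + 1) - 1))
    (hu1 : V1 (m' + 1) ≤ B * (2 ^ (m' + 1) - 1) + A)
    (hu2 : V2 (m' + 1) ≤ B * (2 ^ (m' + 1) - 1) + A)
    (hfar : Far a (m' + 1) 0) {z1 P1 z2 P2 : ℕ → ℝ} {T : ℝ}
    (c1 : ChainOK (m' + 1) z1 P1 T) (c2 : ChainOK (m' + 1) z2 P2 T) :
    0 ≤ (∑ k ∈ range (m' + 1),
          2 * 4 ^ (m' + 1) * (P1 k + xx (m' + 1) z1 T k - bb (m' + 1) V1 k) ^ 2 -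
            2 * ∑ k ∈ range m', 2 ^ k * z1 (k + 1)) +
        (∑ k ∈ range (m' + 1),
          2 * 4 ^ (m' + 1) * (P2 k + xx (m' + 1) z2 T k - bb (m' + 1) V2 k) ^ 2 -
            2 * ∑ k ∈ range m', 2 ^ k * z2 (k + 1)) -
        T ^ 2 / B + B * (2 ^ (m' + 1) - 1) ^ 2 - 1 := by
  have k1 := chain_lb hV1 c1 (4 ^ (m' + 1))
  have k2 := chain_lb hV2 c2 (4 ^ (m' + 1))
  set r1 : ℕ → ℝ := fun k => P1 k + xx (m' + 1) z1 T k - bb (m' + 1) V1 k with hr1
  set r2 : ℕ → ℝ := fun k => P2 k + xx (m' + 1) z2 T k - bb (m' + 1) V2 k with hr2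
  have hB0 : 0 < B := by linarith
  have hp : (2 : ℝ) ^ (m' + 1) = 2 * 2 ^ m' := by ring
  have hp1 : (1 : ℝ) ≤ 2 ^ m' := one_le_pow₀ (by norm_num)
  set q : ℝ := 2 ^ m' with hq
  have hM4 : (4 : ℝ) ^ (m' + 1) = 4 * q ^ 2 := by
    rw [hq, pow_succ, ← pow_mul, mul_comm m' 2, pow_mul]; norm_num; ring
  have e4 : 2 * (S V1 (m' + 1) T - q * (T + V1 (m' + 1))) +
      2 * (S V2 (m' + 1) T - q * (T + V2 (m' + 1))) =
      2 * (S V1 (m' + 1) T + S V2 (m' + 1) T) - 4 * q * T - 4 * q * B * (2 * q - 1) := by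
    have : q * (V1 (m' + 1) + V2 (m' + 1)) = q * (2 * B * (2 ^ (m' + 1) - 1)) := by rw [hs]
    rw [hp] at this
    linear_combination (-2) * this
  rcases le_or_gt T (B * (2 ^ (m' + 1) + 1) - 1) with hT | hT
  · have g := pair_ge B (by linarith) a V1 V2 (m' + 1) h1 h2 (m' + 1) le_rfl T 0 hfar
      (by rw [abs_of_nonneg c1.T0]; exact hT)
    rw [add_zero, sub_zero] at g
    have p1 := pens_ge (m' + 1) (m' + 1) le_rfl r1
    have p2 := pens_ge (m' + 1) (m' + 1) le_rfl r2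
    rw [hp, case1_aux hB0] at g
    have e3 : 1 / (2 * B) ≤ 1 / 8 := by
      apply one_div_le_one_div_of_le <;> linarith
    have e5 : B * (2 ^ (m' + 1) - 1) ^ 2 = B * (4 * q ^ 2) - 4 * B * q + B := by rw [hp]; ring
    have e6 : 4 * q * B * (2 * q - 1) = 2 * (B * (4 * q ^ 2)) - 4 * B * q := by ring
    have e7 : T * (2 * q) = 2 * (q * T) := by ring
    have e8 : 2 * B * q ^ 2 = (B * (4 * q ^ 2)) / 2 := by ring
    have e9 : 4 * q * T = 4 * (q * T) := by ring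
    rw [e5]
    rw [e6, e9] at e4
    rw [e7, e8] at g
    simp only [hr1] at p1
    simp only [hr2] at p2
    clear_value q
    linarith
  · have s1 := S_ge V1 (m' + 1) T
    have s2 := S_ge V2 (m' + 1) T
    have p1 := pens_ge (m' + 1) m' (by omega) r1
    have p2 := pens_ge (m' + 1) m' (by omega) r2
    rw [Finset.sum_range_succ _ m', ← hq] at k1 k2
    set D : ℝ := T - B * (2 ^ (m' + 1) - 1) with hD
    have hD1 : 2 * B - 1 ≤ D := by rw [hD]; linarith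
    have top : ∀ (V z P : ℕ → ℝ), ChainOK (m' + 1) z P T → V (m' + 1) ≤ B * (2 ^ (m' + 1) - 1) + A →
        D / 2 ≤ P m' + xx (m' + 1) z T m' - bb (m' + 1) V m' := by
      intro V z P c hu
      simp only [xx, bb, lt_irrefl, if_false]
      have := c.nonneg m' (by omega)
      have := c.zP m' (by omega)
      linarith
    have q1 := pen_top hp1 (by linarith) (top V1 z1 P1 c1 hu1)
    have q2 := pen_top hp1 (by linarith) (top V2 z2 P2 c2 hu2)
    rw [← hM4] at q1 q2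
    have e2 : T ^ 2 / B = B * (2 ^ (m' + 1) - 1) ^ 2 + 2 * (2 ^ (m' + 1) - 1) * D + D ^ 2 / B := by
      have : T = D + B * (2 ^ (m' + 1) - 1) := by rw [hD]; ring
      rw [this]; field_simp; ring
    have e3 : D ^ 2 / B ≤ D ^ 2 := by
      apply div_le_self (sq_nonneg _); linarith
    have e5 : 2 * (S V1 (m' + 1) T + S V2 (m' + 1) T) - 4 * q * T -
        4 * q * B * (2 * q - 1) ≥ 2 * 2 ^ (m' + 1) * D := by
      have h8 : 4 * (2 ^ (m' + 1) * T) - 4 * q * T - 4 * q * B * (2 * q - 1) =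
        2 * 2 ^ (m' + 1) * D := by
        rw [hD, hp]; ring
      linarith
    rw [e2]
    simp only [hr1] at p1
    simp only [hr2] at p2
    have e6 := sq_nonneg D
    clear_value q D
    linarith

end Pool.Agent.H699.TU
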